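import Pool.Agent.Run7.h792.MZ.Core

/-!
# The values `ζ(n - j, 1, …, 1)` (helper792)
-/

set_option autoImplicit false

open Finset

namespace Pool.Agent.Run7.h792.MZ

lemma tl_one (j : ℕ) : tl (fun _ => 1) j = List.replicate j 1 := by
  induction j with
  | zero => rfl
  | succ j ih => rw [tl, ih, List.replicate_succ]

lemma PP_one (j : ℕ) : PP (fun _ => 1) j = j.factorial := by
  induction j with
  | zero => simp [PP]
  | succ j ih => rw [PP_succ, ih, pow_one, Nat.factorial_succ, mul_comm]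

/-- `ζ(n - j, 1, …, 1)` with `j` ones -/
noncomputable def Mj (n j : ℕ) : ℝ := mzv ((n - j) :: List.replicate j 1)

/-- the facts about the parameters -/
structure Par (n s : ℕ) (L : ℝ) : Prop where
  s1 : 1 ≤ s
  n3 : 3 ≤ n
  L1 : 1 ≤ L
  hL : L = Real.log n
  h : 64 * (s : ℝ) ^ 2 * L ≤ n

namespace Par

variable {n s : ℕ} {L : ℝ} (P : Par n s L)

include P

lemma sr : (1 : ℝ) ≤ s := by exact_mod_cast P.s1

lemma nat64 : 64 * s ^ 2 ≤ n := by
  have h1 := P.h
  have h2 := P.L1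
  have h3 := P.sr
  have : (64 : ℝ) * (s : ℝ) ^ 2 ≤ n := by nlinarith
  exact_mod_cast this

lemma log_le {j : ℕ} (hj : j ≤ s) : Real.log ((j : ℝ) + 2) ≤ L := by
  rw [P.hL]
  refine Real.log_le_log (by positivity) ?_
  have h1 : j + 2 ≤ n := by
    have := P.nat64
    have := P.s1
    nlinarith
  exact_mod_cast h1

lemma err_le_one {j : ℕ} (hj : j ≤ s) : err (j + 1) (n - j) ≤ 1 := by
  refine (err_le (j + 1) (n - j) (by omega)).trans ?_
  have hs1 := P.sr
  have hL1 := P.L1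
  have h64 := P.nat64
  have hjn : j ≤ n := by nlinarith [P.s1]
  have e1 : (((j + 1 : ℕ) : ℝ) + 1) = (j : ℝ) + 2 := by push_cast; ring
  rw [e1]
  have hpos : (0 : ℝ) < (j : ℝ) + 2 := by positivity
  have hlog := P.log_le hj
  have hlog0 : 0 ≤ Real.log ((j : ℝ) + 2) := Real.log_nonneg (by linarith)
  have hjr : (j : ℝ) ≤ s := by exact_mod_cast hj
  have e2 : 2 * ((j : ℝ) + 2) ^ (j + 1 + 1) * Real.exp (-(((n - j : ℕ) : ℝ) / ((j : ℝ) + 2))) =
      Real.exp (Real.log 2 + ((j : ℝ) + 2) * Real.log ((j : ℝ) + 2) -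
        ((n - j : ℕ) : ℝ) / ((j : ℝ) + 2)) := by
    rw [Real.exp_sub, Real.exp_add, Real.exp_log (by norm_num), Real.exp_neg]
    have e3 : ((j : ℝ) + 2) ^ (j + 1 + 1) = Real.exp (((j : ℝ) + 2) * Real.log ((j : ℝ) + 2)) := by
      rw [show (((j : ℝ) + 2) * Real.log ((j : ℝ) + 2)) = ((j + 1 + 1 : ℕ) : ℝ) * Real.log ((j : ℝ) + 2) by
        push_cast; ring, Real.exp_nat_mul, Real.exp_log hpos]
    rw [e3]
    field_simp
  rw [e2]
  refine Real.exp_le_one_iff.2 ?_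
  have h2 : Real.log 2 ≤ 1 := by
    have := Real.log_two_lt_d9
    linarith
  have h3 : ((j : ℝ) + 2) * Real.log ((j : ℝ) + 2) ≤ (3 * s) * L :=
    mul_le_mul (by linarith) hlog hlog0 (by positivity)
  have h4 : (3 * s) * L + 1 ≤ ((n - j : ℕ) : ℝ) / ((j : ℝ) + 2) := by
    rw [le_div_iff₀ hpos, Nat.cast_sub hjn]
    have h5 : ((3 * s) * L + 1) * ((j : ℝ) + 2) ≤ (4 * s * L) * (3 * s) :=
      mul_le_mul (by nlinarith) (by linarith) (by positivity) (by positivity)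
    have h6 := P.h
    nlinarith [mul_nonneg (mul_nonneg (show (0:ℝ) ≤ s by linarith) (show (0:ℝ) ≤ s by linarith)) (show (0:ℝ) ≤ L by linarith)]
  linarith

/-- the constant -/
lemma bounds {j : ℕ} (hj : j ≤ s) :
    1 / (((s : ℝ) + 1) ^ (2 * s) * ((j : ℝ) + 1) ^ n) ≤ Mj n j ∧
    Mj n j ≤ 2 * ((s : ℝ) + 1) ^ (2 * s) / ((j : ℝ) + 1) ^ n := by
  have h64 := P.nat64
  have hs1 := P.s1
  have h23 : 2 * s + 3 ≤ n := by nlinarith
  obtain ⟨h1, h2⟩ := mzv_bounds (fun _ => 1) j (n - j) (by omega)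
  rw [tl_one, PP_one] at h1 h2
  have he := P.err_le_one hj
  have hjr : (j : ℝ) ≤ s := by exact_mod_cast hj
  have e1 : ((j + 1 : ℕ) : ℝ) = (j : ℝ) + 1 := by push_cast; ring
  rw [e1] at h1 h2
  have hj0 : (0 : ℝ) < (j : ℝ) + 1 := by positivity
  have hf : (1 : ℝ) ≤ (j.factorial : ℝ) := by exact_mod_cast Nat.factorial_pos j
  have hsplit : ((j : ℝ) + 1) ^ n = ((j : ℝ) + 1) ^ j * ((j : ℝ) + 1) ^ (n - j) := by
    rw [← pow_add]
    congr 1
    have : j ≤ n := by nlinarith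
    omega
  have hB1 : ((j : ℝ) + 1) ^ j ≤ ((s : ℝ) + 1) ^ (2 * s) :=
    (pow_le_pow_left₀ hj0.le (by linarith) j).trans
      (pow_le_pow_right₀ (by linarith) (by omega))
  have hB2 : (j.factorial : ℝ) ≤ ((s : ℝ) + 1) ^ (2 * s) := by
    have h3 : j.factorial ≤ (s + 1) ^ (2 * s) := by
      calc j.factorial ≤ j ^ j := Nat.factorial_le_pow j
        _ ≤ (s + 1) ^ j := Nat.pow_le_pow_left (by omega) j
        _ ≤ (s + 1) ^ (2 * s) := Nat.pow_le_pow_right (by omega) (by omega)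
    exact_mod_cast h3
  have hone : (1 : ℝ) ≤ ((j : ℝ) + 1) ^ j := one_le_pow₀ (by linarith [Nat.cast_nonneg (α := ℝ) j])
  have hp : (0 : ℝ) < ((j : ℝ) + 1) ^ (n - j) := by positivity
  constructor
  · refine le_trans ?_ h1
    rw [inv_eq_one_div, div_div]
    refine one_div_le_one_div_of_le (by positivity) ?_
    rw [hsplit]
    calc (j.factorial : ℝ) * ((j : ℝ) + 1) ^ (n - j)
        ≤ ((s : ℝ) + 1) ^ (2 * s) * (1 * ((j : ℝ) + 1) ^ (n - j)) := by
          rw [one_mul]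
          exact mul_le_mul_of_nonneg_right hB2 hp.le
      _ ≤ ((s : ℝ) + 1) ^ (2 * s) * (((j : ℝ) + 1) ^ j * ((j : ℝ) + 1) ^ (n - j)) :=
          mul_le_mul_of_nonneg_left (mul_le_mul_of_nonneg_right hone hp.le) (by positivity)
  · refine h2.trans ?_
    rw [hsplit, le_div_iff₀ (by positivity)]
    have h3 : ((j.factorial : ℕ) : ℝ)⁻¹ ≤ 1 := inv_le_one_of_one_le₀ hf
    calc ((j.factorial : ℕ) : ℝ)⁻¹ / ((j : ℝ) + 1) ^ (n - j) * (1 + err (j + 1) (n - j)) *
          (((j : ℝ) + 1) ^ j * ((j : ℝ) + 1) ^ (n - j))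
        = ((j.factorial : ℕ) : ℝ)⁻¹ * ((1 + err (j + 1) (n - j)) * ((j : ℝ) + 1) ^ j) := by
          field_simp
      _ ≤ 1 * (2 * ((s : ℝ) + 1) ^ (2 * s)) := by
          refine mul_le_mul h3 (mul_le_mul (by linarith) hB1 (by positivity) (by norm_num)) ?_ (by norm_num)
          have : 0 ≤ err (j + 1) (n - j) := by unfold err; positivity
          positivity
      _ = 2 * ((s : ℝ) + 1) ^ (2 * s) := by ring

/-- the inequality between the parameters -/
lemma key : 4 * (s : ℝ) * Real.exp (n / (8 * s)) * (((s : ℝ) + 1) ^ (2 * s)) ^ 2 ≤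
    Real.exp (n / (4 * s)) := by
  have hs1 := P.sr
  have hL1 := P.L1
  have e1 : 4 * (s : ℝ) * Real.exp (n / (8 * s)) * (((s : ℝ) + 1) ^ (2 * s)) ^ 2 =
      Real.exp (Real.log (4 * s) + n / (8 * s) + 4 * s * Real.log ((s : ℝ) + 1)) := by
    rw [Real.exp_add, Real.exp_add, Real.exp_log (by positivity)]
    congr 1
    rw [← pow_mul, show (4 * (s : ℝ)) * Real.log ((s : ℝ) + 1) =
      ((2 * s * 2 : ℕ) : ℝ) * Real.log ((s : ℝ) + 1) by push_cast; ring, Real.exp_nat_mul,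
      Real.exp_log (by positivity)]
  rw [e1]
  refine Real.exp_le_exp.2 ?_
  have h1 : Real.log ((s : ℝ) + 1) ≤ L :=
    (Real.log_le_log (by positivity) (by linarith)).trans (P.log_le le_rfl)
  have h2 : Real.log (4 * s) ≤ 3 * s * L := by
    rw [Real.log_mul (by norm_num) (by positivity)]
    have h3 : Real.log (s : ℝ) ≤ L := (Real.log_le_log (by positivity) (by linarith)).trans h1
    have h4 : Real.log 4 ≤ 2 := by
      rw [show (4 : ℝ) = 2 ^ 2 by norm_num, Real.log_pow]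
      have := Real.log_two_lt_d9
      push_cast
      linarith
    nlinarith
  have h5 : 4 * (s : ℝ) * Real.log ((s : ℝ) + 1) ≤ 4 * s * L :=
    mul_le_mul_of_nonneg_left h1 (by positivity)
  have h6 : 7 * (s : ℝ) * L ≤ n / (8 * s) := by
    rw [le_div_iff₀ (by positivity)]
    have := P.h
    nlinarith [mul_nonneg (mul_nonneg (show (0:ℝ) ≤ s by linarith) (show (0:ℝ) ≤ s by linarith)) (show (0:ℝ) ≤ L by linarith)]
  have h7 : (n : ℝ) / (4 * s) = n / (8 * s) + n / (8 * s) := by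
    field_simp
    ring
  rw [h7]
  nlinarith

lemma ratio {j : ℕ} (hj : j ≤ s) :
    ((j : ℝ) + 1) ^ n * Real.exp (n / (4 * s)) ≤ ((j : ℝ) + 2) ^ n := by
  have hs1 := P.sr
  have hjr : (j : ℝ) ≤ s := by exact_mod_cast hj
  have h1 : Real.exp (1 / (4 * s)) ≤ ((j : ℝ) + 2) / ((j : ℝ) + 1) := by
    have h2 : Real.exp (1 / (4 * (s : ℝ))) ≤ 1 / (1 - 1 / (4 * s)) := by
      have h3 : 1 / (4 * (s : ℝ)) < 1 := by
        rw [div_lt_one (by positivity)]
        linarith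
      have h4 := Real.add_one_le_exp (-(1 / (4 * (s : ℝ))))
      rw [Real.exp_neg] at h4
      rw [le_div_iff₀ (by linarith)]
      have h5 : 0 < Real.exp (1 / (4 * (s : ℝ))) := Real.exp_pos _
      calc Real.exp (1 / (4 * (s : ℝ))) * (1 - 1 / (4 * s)) ≤
            Real.exp (1 / (4 * (s : ℝ))) * (Real.exp (1 / (4 * (s : ℝ))))⁻¹ :=
            mul_le_mul_of_nonneg_left (by linarith) h5.le
        _ = 1 := mul_inv_cancel₀ h5.ne'
    refine h2.trans ?_
    have h6 : (1 : ℝ) - 1 / (4 * s) = (4 * s - 1) / (4 * s) := by field_simp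
    rw [h6, one_div_div, div_le_div_iff₀ (by linarith) (by positivity)]
    nlinarith
  have h2 : Real.exp ((n : ℝ) / (4 * s)) = Real.exp (1 / (4 * s)) ^ n := by
    rw [← Real.exp_nat_mul]
    congr 1
    ring
  rw [h2, ← mul_pow]
  refine pow_le_pow_left₀ (by positivity) ?_ n
  rw [le_div_iff₀ (by positivity)] at h1
  linarith

end Par

/-- **The triangular family.** -/
theorem tri (n s : ℕ) (L : ℝ) (P : Par n s L) (b : ℤ) (x : ℕ → ℤ)
    (hx : ∀ j ∈ Finset.Icc 1 s, |(x j : ℝ)| ≤ Real.exp (n / (8 * s)))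
    (hne : b ≠ 0 ∨ ∃ j ∈ Finset.Icc 1 s, x j ≠ 0) :
    1 / (n : ℝ) ^ n ≤ |b + ∑ j ∈ Finset.Icc 1 s, x j * Mj n j| := by
  classical
  have hs1 := P.sr
  have hs1n := P.s1
  have hL1 := P.L1
  have h64 := P.nat64
  have hn3 := P.n3
  have hnr : (3 : ℝ) ≤ n := by exact_mod_cast hn3
  set B : ℝ := ((s : ℝ) + 1) ^ (2 * s) with hB
  set H : ℝ := Real.exp (n / (8 * s)) with hH
  have hB1 : 1 ≤ B := one_le_pow₀ (by linarith)
  have hH1 : 0 < H := Real.exp_pos _
  have hkey : 4 * (s : ℝ) * H * B ^ 2 ≤ Real.exp (n / (4 * s)) := P.key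
  -- sums over a set of large indices
  have htail : ∀ (j0 : ℕ) (V : Finset ℕ), j0 ≤ s → V ⊆ Finset.Icc 1 s → (∀ j ∈ V, j0 + 1 ≤ j) →
      |∑ j ∈ V, (x j : ℝ) * Mj n j| ≤ 1 / (2 * B) / ((j0 : ℝ) + 1) ^ n := by
    intro j0 V hj0 hV hVj
    have h1 : ∀ j ∈ V, |(x j : ℝ) * Mj n j| ≤ H * (2 * B / ((j0 : ℝ) + 2) ^ n) := by
      intro j hj
      have hjI := Finset.mem_Icc.1 (hV hj)
      obtain ⟨b1, b2⟩ := P.bounds hjI.2
      have hM0 : 0 ≤ Mj n j := le_trans (by positivity) b1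
      rw [abs_mul, abs_of_nonneg hM0]
      refine mul_le_mul (hx j (hV hj)) (b2.trans ?_) hM0 hH1.le
      refine div_le_div_of_nonneg_left (by positivity) (by positivity) ?_
      refine pow_le_pow_left₀ (by positivity) ?_ n
      have : ((j0 + 1 : ℕ) : ℝ) ≤ j := by exact_mod_cast hVj j hj
      push_cast at this
      linarith
    have h2 : |∑ j ∈ V, (x j : ℝ) * Mj n j| ≤ s * (H * (2 * B / ((j0 : ℝ) + 2) ^ n)) := by
      refine (Finset.abs_sum_le_sum_abs _ _).trans ((Finset.sum_le_sum h1).trans ?_)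
      rw [Finset.sum_const, nsmul_eq_mul]
      refine mul_le_mul_of_nonneg_right ?_ (by positivity)
      have : V.card ≤ s := by
        have := Finset.card_le_card hV
        rw [Nat.card_Icc] at this
        omega
      exact_mod_cast this
    refine h2.trans ?_
    have h3 := P.ratio hj0
    have hp1 : (0 : ℝ) < ((j0 : ℝ) + 1) ^ n := by positivity
    have hp2 : (0 : ℝ) < ((j0 : ℝ) + 2) ^ n := by positivity
    rw [div_div, show (s : ℝ) * (H * (2 * B / ((j0 : ℝ) + 2) ^ n)) =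
      (s * H * (2 * B)) / ((j0 : ℝ) + 2) ^ n by ring, div_le_div_iff₀ hp2 (by positivity)]
    calc (s : ℝ) * H * (2 * B) * (2 * B * ((j0 : ℝ) + 1) ^ n)
        = (4 * s * H * B ^ 2) * ((j0 : ℝ) + 1) ^ n := by ring
      _ ≤ Real.exp (n / (4 * s)) * ((j0 : ℝ) + 1) ^ n := mul_le_mul_of_nonneg_right hkey hp1.le
      _ ≤ 1 * ((j0 : ℝ) + 2) ^ n := by rw [one_mul, mul_comm]; exact h3
  by_cases hb : b = 0
  · subst hb
    rw [Int.cast_zero, zero_add]
    have hex : ∃ j, j ∈ Finset.Icc 1 s ∧ x j ≠ 0 := by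
      rcases hne with h | ⟨j, h1, h2⟩
      · exact absurd rfl h
      · exact ⟨j, h1, h2⟩
    obtain ⟨hj0I, hj0x⟩ := Nat.find_spec hex
    have hmin : ∀ j ∈ Finset.Icc 1 s, j < Nat.find hex → x j = 0 := by
      intro j hj hlt
      by_contra h
      exact Nat.find_min hex hlt ⟨hj, h⟩
    set j0 := Nat.find hex with hj0def
    obtain ⟨hj01, hj0s⟩ := Finset.mem_Icc.1 hj0I
    obtain ⟨b1, -⟩ := P.bounds hj0s
    have hM0 : 0 < Mj n j0 := lt_of_lt_of_le (by positivity) b1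
    set V := (Finset.Icc 1 s).filter (fun j => j0 < j) with hV
    have hsum : ∑ j ∈ Finset.Icc 1 s, (x j : ℝ) * Mj n j =
        x j0 * Mj n j0 + ∑ j ∈ V, (x j : ℝ) * Mj n j := by
      rw [← Finset.add_sum_erase _ _ hj0I]
      congr 1
      symm
      refine Finset.sum_subset ?_ ?_
      · intro j hj
        rw [hV, Finset.mem_filter] at hj
        rw [Finset.mem_erase]
        exact ⟨by omega, hj.1⟩
      · intro j hj hjV
        rw [Finset.mem_erase] at hj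
        have hlt : j < j0 := by
          by_contra hcon
          apply hjV
          rw [hV, Finset.mem_filter]
          exact ⟨hj.2, by omega⟩
        rw [hmin j hj.2 hlt]
        simp
    have ht := htail j0 V hj0s (Finset.filter_subset _ _) (fun j hj => by
      have := (Finset.mem_filter.1 hj).2
      omega)
    have hx1 : (1 : ℝ) ≤ |(x j0 : ℝ)| := by
      have := Int.one_le_abs hj0x
      exact_mod_cast this
    have hlow : 1 / (2 * B) / ((j0 : ℝ) + 1) ^ n ≤ |∑ j ∈ Finset.Icc 1 s, (x j : ℝ) * Mj n j| := by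
      rw [hsum]
      have h1 : |(x j0 : ℝ) * Mj n j0| ≤ |(x j0 : ℝ) * Mj n j0 + ∑ j ∈ V, (x j : ℝ) * Mj n j| +
          |∑ j ∈ V, (x j : ℝ) * Mj n j| := by
        have := abs_sub ((x j0 : ℝ) * Mj n j0 + ∑ j ∈ V, (x j : ℝ) * Mj n j)
          (∑ j ∈ V, (x j : ℝ) * Mj n j)
        rw [add_sub_cancel_right] at this
        exact this
      rw [abs_mul, abs_of_pos hM0] at h1
      have h2 : Mj n j0 ≤ |(x j0 : ℝ)| * Mj n j0 := by nlinarith
      have h3 : 1 / (B * ((j0 : ℝ) + 1) ^ n) = 1 / (2 * B) / ((j0 : ℝ) + 1) ^ n +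
          1 / (2 * B) / ((j0 : ℝ) + 1) ^ n := by
        field_simp
        ring
      linarith
    refine le_trans ?_ hlow
    rw [div_div]
    refine one_div_le_one_div_of_le (by positivity) ?_
    have h4 : ((j0 : ℝ) + 1) ^ n ≤ ((s : ℝ) + 1) ^ n :=
      pow_le_pow_left₀ (by positivity) (by
        have : (j0 : ℝ) ≤ s := by exact_mod_cast hj0s
        linarith) n
    have h5 : 2 * (s + 1) ^ (2 * s + n) ≤ n ^ n := by
      have h6 : (2 * (s + 1) ^ (2 * s + n)) ^ 2 ≤ (n ^ n) ^ 2 := by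
        have h7 : (s + 1) ^ 2 ≤ n := by nlinarith
        have h8 : 4 * (s + 1) ^ 2 ≤ n := by nlinarith
        have h9 : 16 * s + 16 ≤ n := by nlinarith
        have h10 : (2 : ℕ) ^ 2 ≤ n := by omega
        have hu : ∀ u : ℕ, (2 * u ^ (2 * s + n)) ^ 2 = 4 * (u ^ 2) ^ (2 * s) * (u ^ 2) ^ n := by
          intro u
          ring
        calc (2 * (s + 1) ^ (2 * s + n)) ^ 2 = 2 ^ 2 * ((s + 1) ^ 2) ^ (2 * s) * ((s + 1) ^ 2) ^ n :=
              hu (s + 1)
          _ ≤ n * n ^ (2 * s) * n ^ n := by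
              refine Nat.mul_le_mul (Nat.mul_le_mul h10 (Nat.pow_le_pow_left h7 _)) (Nat.pow_le_pow_left h7 _)
          _ = n ^ (2 * s + 1) * n ^ n := by ring
          _ ≤ n ^ n * n ^ n := Nat.mul_le_mul_right _ (Nat.pow_le_pow_right (by omega) (by omega))
          _ = (n ^ n) ^ 2 := by ring
      exact (Nat.pow_le_pow_iff_left (by norm_num)).1 h6
    have h6 : (2 : ℝ) * ((s : ℝ) + 1) ^ (2 * s + n) ≤ (n : ℝ) ^ n := by exact_mod_cast h5
    calc 2 * B * ((j0 : ℝ) + 1) ^ n ≤ 2 * B * ((s : ℝ) + 1) ^ n :=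
          mul_le_mul_of_nonneg_left h4 (by positivity)
      _ = 2 * ((s : ℝ) + 1) ^ (2 * s + n) := by rw [hB, pow_add]; ring
      _ ≤ (n : ℝ) ^ n := h6
  · have ht := htail 0 (Finset.Icc 1 s) (by omega) (Finset.Subset.refl _) (fun j hj => by
      have := (Finset.mem_Icc.1 hj).1
      omega)
    have h1 : |∑ j ∈ Finset.Icc 1 s, (x j : ℝ) * Mj n j| ≤ 1 / 2 := by
      refine ht.trans ?_
      rw [Nat.cast_zero, zero_add, one_pow, div_one]
      exact one_div_le_one_div_of_le (by norm_num) (by linarith)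
    have hb1 : (1 : ℝ) ≤ |(b : ℝ)| := by
      have := Int.one_le_abs hb
      exact_mod_cast this
    have h2 : |(b : ℝ)| ≤ |(b : ℝ) + ∑ j ∈ Finset.Icc 1 s, (x j : ℝ) * Mj n j| +
        |∑ j ∈ Finset.Icc 1 s, (x j : ℝ) * Mj n j| := by
      have := abs_sub ((b : ℝ) + ∑ j ∈ Finset.Icc 1 s, (x j : ℝ) * Mj n j)
        (∑ j ∈ Finset.Icc 1 s, (x j : ℝ) * Mj n j)
      rw [add_sub_cancel_right] at this
      exact this
    have h3 : (1 : ℝ) / 2 ≤ |(b : ℝ) + ∑ j ∈ Finset.Icc 1 s, (x j : ℝ) * Mj n j| := by linarith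
    refine le_trans ?_ h3
    refine one_div_le_one_div_of_le (by norm_num) ?_
    calc (2 : ℝ) ≤ (n : ℝ) ^ 1 := by rw [pow_one]; linarith
      _ ≤ (n : ℝ) ^ n := pow_le_pow_right₀ (by linarith) (by omega)

end Pool.Agent.Run7.h792.MZ
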