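import Pool.Agent.Run7.h792.MZ.Main2
import Pool.Agent.Run7.h792.MZ.Tri

/-!
# The final theorem on many separated multiple zeta values (helper792)
-/

set_option autoImplicit false

open Finset

namespace Pool.Agent.Run7.h792.MZ

/-- admissible indices -/
def Ad (w : List ℕ) : Prop := (∀ s ∈ w, 1 ≤ s) ∧ ∀ s ∈ w.head?, 2 ≤ s

theorem final : ∃ c : ℝ, 0 < c ∧ ∃ n₀ : ℕ, ∀ n : ℕ, n₀ ≤ n →
    (∃ T : Finset ℝ, Real.exp (c * √((n : ℝ) / Real.log n ^ 3)) ≤ T.card ∧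
      ∀ x ∈ T, ∃ w : List ℕ, Ad w ∧ w.sum = n ∧ mzv w = x) ∧
    (∀ m : ℕ, 1 ≤ m → (m : ℝ) ^ 2 ≤ c * √((n : ℝ) / Real.log n ^ 3) → ∃ W : Finset (List ℕ),
      (∀ w ∈ W, Ad w ∧ w.sum = n) ∧
      Real.exp (c * √((n : ℝ) / Real.log n ^ 3) / (m : ℝ) ^ 2) ≤ W.card ∧
      ∀ V ⊆ W, V.card ≤ m → ∀ (b : ℤ) (x : List ℕ → ℤ),
        (∀ w ∈ V, |(x w : ℝ)| ≤ Real.exp (c * √((n : ℝ) / Real.log n) / m)) →
        (b ≠ 0 ∨ ∃ w ∈ V, x w ≠ 0) → 1 / (n : ℝ) ^ n ≤ |b + ∑ w ∈ V, x w * mzv w|) ∧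
    (∃ W : ℕ → Finset (List ℕ),
      (∀ p, n ≤ p → p ≤ 2 * n → (∀ w ∈ W p, Ad w ∧ w.sum = p) ∧
        Real.exp (c * √((n : ℝ) / Real.log n ^ 3)) ≤ (W p).card) ∧
      ∀ p q, n ≤ p → p ≤ 2 * n → n ≤ q → q ≤ 2 * n → ∀ w ∈ W p, ∀ w' ∈ W q, w ≠ w' →
        ∀ α β : ℤ, |(α : ℝ)| ≤ Real.exp (c * √((n : ℝ) / Real.log n)) →
          |(β : ℝ)| ≤ Real.exp (c * √((n : ℝ) / Real.log n)) →
          (α : ℝ) * mzv w = β * mzv w' → α = 0 ∧ β = 0) ∧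
    ∀ s : ℕ, 1 ≤ s → (s : ℝ) ≤ c * √((n : ℝ) / Real.log n) → ∀ (b : ℤ) (x : ℕ → ℤ),
      (∀ j ∈ Finset.Icc 1 s, |(x j : ℝ)| ≤ Real.exp (c * n / s)) →
      (b ≠ 0 ∨ ∃ j ∈ Finset.Icc 1 s, x j ≠ 0) →
      1 / (n : ℝ) ^ n ≤ |b + ∑ j ∈ Finset.Icc 1 s, x j * mzv ((n - j) :: List.replicate j 1)| := by
  classical
  obtain ⟨c₁, hc₁, N₁, h₁⟩ := main
  obtain ⟨c₂, hc₂, N₂, h₂⟩ := main2
  set c : ℝ := min (min c₁ c₂) (1 / 8) with hc
  have hc0 : 0 < c := lt_min (lt_min hc₁ hc₂) (by norm_num)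
  have hcc1 : c ≤ c₁ := (min_le_left _ _).trans (min_le_left _ _)
  have hcc2 : c ≤ c₂ := (min_le_left _ _).trans (min_le_right _ _)
  have hcc3 : c ≤ 1 / 8 := min_le_right _ _
  refine ⟨c, hc0, max (max N₁ N₂) 3, fun n hn => ?_⟩
  have hn1 : N₁ ≤ n := (le_max_left _ _).trans ((le_max_left _ _).trans hn)
  have hn2 : N₂ ≤ n := (le_max_right _ _).trans ((le_max_left _ _).trans hn)
  have hn3 : 3 ≤ n := (le_max_right _ _).trans hn
  have hX : (0 : ℝ) ≤ √((n : ℝ) / Real.log n ^ 3) := Real.sqrt_nonneg _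
  have hY : (0 : ℝ) ≤ √((n : ℝ) / Real.log n) := Real.sqrt_nonneg _
  have e1 : c * √((n : ℝ) / Real.log n ^ 3) ≤ c₁ * √((n : ℝ) / Real.log n ^ 3) :=
    mul_le_mul_of_nonneg_right hcc1 hX
  have e2 : c * √((n : ℝ) / Real.log n ^ 3) ≤ c₂ * √((n : ℝ) / Real.log n ^ 3) :=
    mul_le_mul_of_nonneg_right hcc2 hX
  have f1 : c * √((n : ℝ) / Real.log n) ≤ c₁ * √((n : ℝ) / Real.log n) :=
    mul_le_mul_of_nonneg_right hcc1 hY
  have f2 : c * √((n : ℝ) / Real.log n) ≤ c₂ * √((n : ℝ) / Real.log n) :=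
    mul_le_mul_of_nonneg_right hcc2 hY
  obtain ⟨W, hW1, hW2⟩ := h₁ n hn1
  have third : ∀ p q, n ≤ p → p ≤ 2 * n → n ≤ q → q ≤ 2 * n → ∀ w ∈ W p, ∀ w' ∈ W q, w ≠ w' →
        ∀ α β : ℤ, |(α : ℝ)| ≤ Real.exp (c * √((n : ℝ) / Real.log n)) →
          |(β : ℝ)| ≤ Real.exp (c * √((n : ℝ) / Real.log n)) →
          (α : ℝ) * mzv w = β * mzv w' → α = 0 ∧ β = 0 :=
    fun p q hp hp2 hq hq2 w hw w' hw' hne α β hα hβ h =>
      hW2 p q hp hp2 hq hq2 w hw w' hw' hne α β (hα.trans (Real.exp_le_exp.2 f1))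
        (hβ.trans (Real.exp_le_exp.2 f1)) h
  refine ⟨?_, ?_, ⟨W, fun p hp hp2 => ⟨(hW1 p hp hp2).1,
    (Real.exp_le_exp.2 e1).trans (hW1 p hp hp2).2⟩, third⟩, ?_⟩
  · refine ⟨(W n).image mzv, ?_, ?_⟩
    · have hinj : Set.InjOn mzv (W n : Set (List ℕ)) := by
        intro w hw w' hw' h
        by_contra hne
        have h1 : |((1 : ℤ) : ℝ)| ≤ Real.exp (c * √((n : ℝ) / Real.log n)) := by
          rw [Int.cast_one, abs_one]
          exact Real.one_le_exp (mul_nonneg hc0.le hY)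
        have := third n n le_rfl (by omega) le_rfl (by omega) w hw w' hw' hne 1 1 h1 h1 (by rw [h])
        exact absurd this.1 one_ne_zero
      rw [Finset.card_image_of_injOn hinj]
      exact (Real.exp_le_exp.2 e1).trans (hW1 n le_rfl (by omega)).2
    · intro x hx
      obtain ⟨w, hw, rfl⟩ := Finset.mem_image.1 hx
      exact ⟨w, ((hW1 n le_rfl (by omega)).1 w hw).1, ((hW1 n le_rfl (by omega)).1 w hw).2, rfl⟩
  · intro m hm hmX
    obtain ⟨W', hW'1, hW'2, hW'3⟩ := h₂ n hn2 m hm (hmX.trans e2)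
    refine ⟨W', hW'1, le_trans (Real.exp_le_exp.2 ?_) hW'2, fun V hV hVm b x hx hne =>
      hW'3 V hV hVm b x (fun w hw => (hx w hw).trans (Real.exp_le_exp.2 ?_)) hne⟩
    · exact div_le_div_of_nonneg_right e2 (by positivity)
    · exact div_le_div_of_nonneg_right f2 (by positivity)
  · intro s hs hsY b x hx hne
    have hL1 : 1 ≤ Real.log (n : ℝ) := by
      rw [Real.le_log_iff_exp_le (by positivity)]
      have h1 := Real.exp_one_lt_d9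
      have h2 : (3 : ℝ) ≤ n := by exact_mod_cast hn3
      linarith
    have hsr : (1 : ℝ) ≤ s := by exact_mod_cast hs
    have hpar : Par n s (Real.log n) := by
      refine ⟨hs, hn3, hL1, rfl, ?_⟩
      have h1 : (s : ℝ) ≤ 1 / 8 * √((n : ℝ) / Real.log n) :=
        hsY.trans (mul_le_mul_of_nonneg_right hcc3 hY)
      have h2 : (8 * (s : ℝ)) ^ 2 ≤ (n : ℝ) / Real.log n := by
        rw [← Real.sq_sqrt (show (0 : ℝ) ≤ (n : ℝ) / Real.log n by positivity)]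
        exact pow_le_pow_left₀ (by positivity) (by linarith) 2
      rw [le_div_iff₀ (by linarith)] at h2
      linarith
    refine tri n s (Real.log n) hpar b x (fun j hj => (hx j hj).trans (Real.exp_le_exp.2 ?_)) hne
    rw [div_le_div_iff₀ (by positivity) (by positivity)]
    have hn0 : (0 : ℝ) ≤ n := by positivity
    have : c * (n : ℝ) ≤ 1 / 8 * n := mul_le_mul_of_nonneg_right hcc3 hn0
    nlinarith

end Pool.Agent.Run7.h792.MZ
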