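import Pool.Agent.Run7.h792.MZ.Words

/-!
# The parameters (helper792)
-/

set_option autoImplicit false

open Finset Filter

namespace Pool.Agent.Run7.h792.MZ

lemma sum_union_le {f : ℕ → ℝ} (hf : ∀ n, 0 ≤ f n) (s u : Finset ℕ) :
    ∑ n ∈ s ∪ u, f n ≤ ∑ n ∈ s, f n + ∑ n ∈ u, f n := by
  rw [← Finset.sum_union_inter]
  have : 0 ≤ ∑ n ∈ s ∩ u, f n := Finset.sum_nonneg fun n _ => hf n
  linarith

lemma primes_low (k : ℕ) (hk : 1 ≤ k) :
    (k : ℝ) * Real.log 2 - Real.log (k + 1) - 2 * √k * Real.log k - Real.log k -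
      Real.log 4 * (k / 8) ≤ (Om k).card * Real.log k := by
  have h1 := Chebyshev.theta_ge k
  have h2 := Chebyshev.theta_le_log4_mul_x (x := (k : ℝ) / 8) (by positivity)
  have hlog : ∀ n : ℕ, 0 ≤ Real.log (n : ℝ) := fun n => Real.log_natCast_nonneg n
  have h3 : Chebyshev.theta k ≤ Chebyshev.theta ((k : ℝ) / 8) + Real.log k +
      (Om k).card * Real.log k := by
    unfold Chebyshev.theta
    rw [Nat.floor_natCast]
    have hsub : (Finset.Ioc 0 k).filter Nat.Prime ⊆
        ((Finset.Ioc 0 ⌊(k : ℝ) / 8⌋₊).filter Nat.Prime ∪ {k}) ∪ Om k := by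
      intro p hp
      rw [Finset.mem_filter, Finset.mem_Ioc] at hp
      rw [Finset.mem_union, Finset.mem_union, Finset.mem_filter, Finset.mem_Ioc,
        Finset.mem_singleton, mem_Om]
      rcases eq_or_ne p k with h | h
      · exact Or.inl (Or.inr h)
      · rcases Nat.lt_or_ge k (8 * p) with h' | h'
        · exact Or.inr ⟨by omega, hp.2, h'⟩
        · refine Or.inl (Or.inl ⟨⟨hp.1.1, ?_⟩, hp.2⟩)
          rw [Nat.le_floor_iff (by positivity), le_div_iff₀ (by norm_num)]
          have : (8 : ℝ) * p ≤ k := by exact_mod_cast h'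
          linarith
    refine (Finset.sum_le_sum_of_subset_of_nonneg hsub fun n _ _ => hlog n).trans ?_
    refine (sum_union_le hlog _ _).trans ?_
    refine add_le_add ((sum_union_le hlog _ _).trans ?_) ?_
    · rw [Finset.sum_singleton]
    · refine (Finset.sum_le_card_nsmul _ _ (Real.log k) fun p hp => ?_).trans (le_of_eq ?_)
      · have h4 := mem_Om.1 hp
        exact Real.log_le_log (by exact_mod_cast h4.2.1.pos) (by exact_mod_cast h4.1.le)
      · rw [nsmul_eq_mul]
  linarith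

lemma log_small : ∃ K₀ : ℕ, ∀ k : ℕ, K₀ ≤ k → Real.log k ≤ √k / 100 := by
  have h := (isLittleO_log_rpow_atTop (show (0 : ℝ) < 1 / 2 by norm_num)).bound
    (show (0 : ℝ) < 1 / 100 by norm_num)
  have h2 : ∀ᶠ k : ℕ in atTop, Real.log (k : ℝ) ≤ √(k : ℝ) / 100 := by
    filter_upwards [tendsto_natCast_atTop_atTop.eventually h] with k hk
    rw [Real.norm_of_nonneg (Real.log_natCast_nonneg k),
      Real.norm_of_nonneg (by positivity), ← Real.sqrt_eq_rpow] at hk
    linarith
  exact eventually_atTop.1 h2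

lemma many_primes : ∃ K₀ : ℕ, ∀ k : ℕ, K₀ ≤ k → Real.log k ≤ √k / 100 ∧
    (k : ℝ) ≤ 4 * ((Om k).card * Real.log k) := by
  obtain ⟨K, hK⟩ := log_small
  refine ⟨max K 2, fun k hk => ?_⟩
  have h1 := hK k ((le_max_left _ _).trans hk)
  have hk2 : 2 ≤ k := (le_max_right _ _).trans hk
  refine ⟨h1, ?_⟩
  have h2 := primes_low k (by omega)
  have hkr : (2 : ℝ) ≤ k := by exact_mod_cast hk2
  have hs : √(k : ℝ) * √(k : ℝ) = k := Real.mul_self_sqrt (by positivity)
  have hs1 : 1 ≤ √(k : ℝ) := by rw [Real.one_le_sqrt]; linarith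
  have hsk : √(k : ℝ) ≤ k := by nlinarith
  have hlog0 : 0 ≤ Real.log (k : ℝ) := Real.log_natCast_nonneg k
  have h3 : Real.log (k + 1) ≤ 2 * Real.log k := by
    rw [← Real.log_rpow (by positivity)]
    refine Real.log_le_log (by positivity) ?_
    rw [Real.rpow_ofNat]
    nlinarith
  have h4 : 2 * √(k : ℝ) * Real.log k ≤ 2 * k / 100 := by
    have : √(k : ℝ) * Real.log k ≤ √(k : ℝ) * (√(k : ℝ) / 100) :=
      mul_le_mul_of_nonneg_left h1 (by positivity)
    nlinarith
  have h5 : Real.log 4 = 2 * Real.log 2 := by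
    rw [show (4 : ℝ) = 2 ^ 2 by norm_num, Real.log_pow]
    norm_num
  have h6 := Real.log_two_gt_d9
  rw [h5] at h2
  nlinarith

end Pool.Agent.Run7.h792.MZ
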