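import Mathlib

/-!
# Exponentially many sets with large symmetric differences (helper792)
-/

set_option autoImplicit false

open Finset

namespace Pool.Agent.Run7.h792.MZ

open scoped symmDiff

theorem exists_code (Ω : Finset ℕ) (d : ℕ) (hd1 : 1 ≤ d) (hd : 12 * d ≤ Ω.card) :
    ∃ C : Finset (Finset ℕ), (∀ A ∈ C, A ⊆ Ω) ∧
      (∀ A ∈ C, ∀ B ∈ C, A ≠ B → d ≤ (A ∆ B).card) ∧ 2 ^ Ω.card ≤ C.card ^ 2 := by
  classical
  set t := Ω.card with ht
  set fam : Finset (Finset (Finset ℕ)) := (Ω.powerset.powerset).filter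
    (fun C => ∀ A ∈ C, ∀ B ∈ C, A ≠ B → d ≤ (A ∆ B).card) with hfam
  have hne : fam.Nonempty := ⟨∅, by simp [hfam]⟩
  obtain ⟨C, hC, hmax⟩ := Finset.exists_max_image fam Finset.card hne
  rw [hfam, Finset.mem_filter, Finset.mem_powerset] at hC
  refine ⟨C, fun A hA => Finset.mem_powerset.1 (hC.1 hA), hC.2, ?_⟩
  -- covering
  have hcov : ∀ B ∈ Ω.powerset, ∃ A ∈ C, (A ∆ B).card < d := by
    intro B hB
    by_contra hno
    push Not at hno
    have hBC : B ∉ C := by
      intro h
      have := hno B h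
      rw [symmDiff_self] at this
      simp at this
      omega
    have hins : insert B C ∈ fam := by
      rw [hfam, Finset.mem_filter, Finset.mem_powerset]
      refine ⟨Finset.insert_subset hB hC.1, ?_⟩
      intro A hA A' hA' hne
      rw [Finset.mem_insert] at hA hA'
      rcases hA with rfl | hA
      · rcases hA' with rfl | hA'
        · exact absurd rfl hne
        · rw [symmDiff_comm]
          exact hno A' hA'
      · rcases hA' with rfl | hA'
        · exact hno A hA
        · exact hC.2 A hA A' hA' hne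
    have := hmax _ hins
    rw [Finset.card_insert_of_notMem hBC] at this
    omega
  -- the size of a ball
  set V := (Ω.powerset.filter (fun D => D.card < d)).card with hV
  have hball : ∀ A ∈ C, (Ω.powerset.filter (fun B => (A ∆ B).card < d)).card ≤ V := by
    intro A hA
    rw [hV]
    refine Finset.card_le_card_of_injOn (fun B => A ∆ B) ?_ ?_
    · intro B hB
      rw [Finset.mem_coe, Finset.mem_filter, Finset.mem_powerset] at hB
      rw [Finset.mem_coe, Finset.mem_filter, Finset.mem_powerset]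
      refine ⟨?_, hB.2⟩
      intro x hx
      rw [Finset.mem_symmDiff] at hx
      rcases hx with hx | hx
      · exact Finset.mem_powerset.1 (hC.1 hA) hx.1
      · exact hB.1 hx.1
    · intro B _ B' _ h
      exact symmDiff_right_injective A h
  have h2t : 2 ^ t ≤ C.card * V := by
    calc 2 ^ t = Ω.powerset.card := by rw [Finset.card_powerset]
      _ ≤ (C.biUnion fun A => Ω.powerset.filter (fun B => (A ∆ B).card < d)).card := by
          refine Finset.card_le_card fun B hB => ?_
          obtain ⟨A, hA, hAB⟩ := hcov B hB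
          rw [Finset.mem_biUnion]
          exact ⟨A, hA, Finset.mem_filter.2 ⟨hB, hAB⟩⟩
      _ ≤ ∑ A ∈ C, (Ω.powerset.filter (fun B => (A ∆ B).card < d)).card := Finset.card_biUnion_le
      _ ≤ ∑ _A ∈ C, V := Finset.sum_le_sum hball
      _ = C.card * V := by rw [Finset.sum_const, smul_eq_mul]
  have hV9 : V * 8 ^ (t - d) ≤ 9 ^ t := by
    have h := Finset.sum_pow_mul_eq_add_pow (1 : ℕ) 8 Ω
    rw [show (1 + 8 : ℕ) = 9 from rfl, ← ht] at h
    rw [← h, hV, ← smul_eq_mul, ← Finset.sum_const]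
    refine (Finset.sum_le_sum (g := fun D => 1 ^ D.card * 8 ^ (t - D.card)) fun D hD => ?_).trans
      (Finset.sum_le_sum_of_subset (Finset.filter_subset _ _))
    rw [one_pow, one_mul]
    exact Nat.pow_le_pow_right (by norm_num) (by have := (Finset.mem_filter.1 hD).2; omega)
  have hV2 : V ^ 2 ≤ 2 ^ t := by
    have h8 : 0 < (8 ^ (t - d)) ^ 2 := by positivity
    refine Nat.le_of_mul_le_mul_right (c := (8 ^ (t - d)) ^ 2) ?_ h8
    have h1 : (V ^ 2 * (8 ^ (t - d)) ^ 2) ^ 2 ≤ (2 ^ t * (8 ^ (t - d)) ^ 2) ^ 2 := by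
      calc (V ^ 2 * (8 ^ (t - d)) ^ 2) ^ 2 = ((V * 8 ^ (t - d)) ^ 2) ^ 2 := by ring
        _ ≤ ((9 ^ t) ^ 2) ^ 2 := Nat.pow_le_pow_left (Nat.pow_le_pow_left hV9 2) 2
        _ = (6561 : ℕ) ^ t := by
            rw [show (6561 : ℕ) = 9 ^ 4 by norm_num, ← pow_mul, ← pow_mul, ← pow_mul]
            congr 1
            ring
        _ ≤ (8192 : ℕ) ^ t := Nat.pow_le_pow_left (by norm_num) t
        _ = 2 ^ (13 * t) := by
            rw [pow_mul]
            norm_num
        _ ≤ 2 ^ (2 * t + 12 * (t - d)) := Nat.pow_le_pow_right (by norm_num) (by omega)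
        _ = (2 ^ t * (8 ^ (t - d)) ^ 2) ^ 2 := by
            rw [show (8 : ℕ) = 2 ^ 3 from rfl, ← pow_mul, ← pow_mul, ← pow_add, ← pow_mul]
            congr 1
            ring
    exact (Nat.pow_le_pow_iff_left (by norm_num)).1 h1
  have h3 : 2 ^ t * 2 ^ t ≤ C.card ^ 2 * 2 ^ t := by
    calc 2 ^ t * 2 ^ t ≤ (C.card * V) * (C.card * V) := Nat.mul_le_mul h2t h2t
      _ = C.card ^ 2 * V ^ 2 := by ring
      _ ≤ C.card ^ 2 * 2 ^ t := Nat.mul_le_mul_left _ hV2
  exact Nat.le_of_mul_le_mul_right h3 (by positivity)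

end Pool.Agent.Run7.h792.MZ
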