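import Mathlib

/-!
# Multiple zeta values with a large first argument (helper792)

`mzv (a :: tl s j)` is `(1 + ε)` times `1 / ((j + 1) ^ a * PP s j)`, `PP s j = ∏ i ^ (s i)`, with an explicit bound for `ε`.
-/

set_option autoImplicit false

open Finset

namespace Pool.Agent.Run7.h792.MZ

/-- `trunc [s_1, ..., s_r] m` is the sum of `∏ n_i ^ (-s_i)` over `m > n_1 > ... > n_r ≥ 1` -/
noncomputable def trunc : List ℕ → ℕ → ℝ
  | [], _ => 1
  | s :: l, m => ∑ j ∈ Finset.Ico 1 m, trunc l j / (j : ℝ) ^ s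

/-- the multiple zeta value `ζ(s_1, ..., s_r)`, the sum of `∏ n_i ^ (-s_i)` over
`n_1 > ... > n_r ≥ 1` -/
noncomputable def mzv : List ℕ → ℝ
  | [] => 1
  | s :: l => ∑' m : ℕ, trunc l (m + 1) / ((m + 1 : ℕ) : ℝ) ^ s

/-- the list `[s j, s (j - 1), ..., s 1]` -/
def tl (s : ℕ → ℕ) : ℕ → List ℕ
  | 0 => []
  | j + 1 => s (j + 1) :: tl s j

/-- the product of the `i ^ (s i)`, `1 ≤ i ≤ j` -/
def PP (s : ℕ → ℕ) (j : ℕ) : ℕ := ∏ i ∈ Finset.Icc 1 j, i ^ s i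

lemma PP_succ (s : ℕ → ℕ) (j : ℕ) : PP s (j + 1) = PP s j * (j + 1) ^ s (j + 1) := by
  unfold PP
  rw [Finset.prod_Icc_succ_top (by omega)]

lemma PP_pos (s : ℕ → ℕ) (j : ℕ) : 0 < PP s j := by
  unfold PP
  exact Finset.prod_pos fun i hi => pow_pos (Finset.mem_Icc.1 hi).1 _

lemma tl_length (s : ℕ → ℕ) (j : ℕ) : (tl s j).length = j := by
  induction j with
  | zero => rfl
  | succ j ih => rw [tl, List.length_cons, ih]

lemma tl_sum (s : ℕ → ℕ) (j : ℕ) : (tl s j).sum = ∑ i ∈ Finset.Icc 1 j, s i := by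
  induction j with
  | zero => simp [tl]
  | succ j ih => rw [tl, List.sum_cons, ih, Finset.sum_Icc_succ_top (by omega), add_comm]

lemma mem_tl (s : ℕ → ℕ) (j t : ℕ) (h : t ∈ tl s j) : ∃ i, 1 ≤ i ∧ i ≤ j ∧ t = s i := by
  induction j with
  | zero => simp [tl] at h
  | succ j ih =>
    rw [tl, List.mem_cons] at h
    rcases h with rfl | h
    · exact ⟨j + 1, by omega, le_rfl, rfl⟩
    · obtain ⟨i, h1, h2, h3⟩ := ih h
      exact ⟨i, h1, by omega, h3⟩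

lemma trunc_nonneg (l : List ℕ) : ∀ m, 0 ≤ trunc l m := by
  induction l with
  | nil => intro m; rw [trunc]; norm_num
  | cons s l ih =>
    intro m
    rw [trunc]
    exact Finset.sum_nonneg fun j _ => div_nonneg (ih j) (by positivity)

lemma hockey (j N : ℕ) : ∑ M ∈ Finset.Ico 1 (N + 1), (M - 1).choose j = N.choose (j + 1) := by
  induction N with
  | zero => simp
  | succ N ih =>
    rw [Finset.sum_Ico_succ_top (by omega), ih, Nat.add_sub_cancel, Nat.choose_succ_succ' N j]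
    omega

lemma trunc_le (s : ℕ → ℕ) (j : ℕ) : ∀ N, 1 ≤ N →
    trunc (tl s j) N ≤ ((PP s j : ℕ) : ℝ)⁻¹ * ((N - 1).choose j : ℕ) := by
  induction j with
  | zero =>
    intro N _
    simp [tl, trunc, PP]
  | succ j ih =>
    intro N hN
    obtain ⟨N, rfl⟩ : ∃ N', N = N' + 1 := ⟨N - 1, by omega⟩
    rw [tl, trunc, Nat.add_sub_cancel, ← hockey j N]
    push_cast
    rw [Finset.mul_sum]
    refine Finset.sum_le_sum fun M hM => ?_
    have hM1 := (Finset.mem_Ico.1 hM).1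
    have h1 := ih M hM1
    rw [PP_succ]
    rcases Nat.lt_or_ge (M - 1) j with h | h
    · rw [Nat.choose_eq_zero_of_lt h] at h1 ⊢
      have h2 : trunc (tl s j) M = 0 := le_antisymm (by simpa using h1) (trunc_nonneg _ _)
      rw [h2]
      simp
    · have hMj : ((j + 1 : ℕ) : ℝ) ≤ (M : ℝ) := by exact_mod_cast (by omega : j + 1 ≤ M)
      have hpos : (0 : ℝ) < ((j + 1 : ℕ) : ℝ) ^ s (j + 1) := by positivity
      have hPP : (0 : ℝ) < ((PP s j : ℕ) : ℝ) := by exact_mod_cast PP_pos s j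
      have h3 : ((j + 1 : ℕ) : ℝ) ^ s (j + 1) ≤ (M : ℝ) ^ s (j + 1) :=
        pow_le_pow_left₀ (by positivity) hMj _
      calc trunc (tl s j) M / (M : ℝ) ^ s (j + 1)
          ≤ (((PP s j : ℕ) : ℝ)⁻¹ * ((M - 1).choose j : ℕ)) / ((j + 1 : ℕ) : ℝ) ^ s (j + 1) :=
            div_le_div₀ (by positivity) h1 hpos h3
        _ = _ := by
            push_cast
            field_simp

lemma trunc_zero (s : ℕ → ℕ) (j N : ℕ) (h1 : 1 ≤ N) (h2 : N ≤ j) : trunc (tl s j) N = 0 := by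
  have h := trunc_le s j N h1
  rw [Nat.choose_eq_zero_of_lt (by omega)] at h
  exact le_antisymm (by simpa using h) (trunc_nonneg _ _)

lemma trunc_eq (s : ℕ → ℕ) (j : ℕ) : trunc (tl s j) (j + 1) = ((PP s j : ℕ) : ℝ)⁻¹ := by
  induction j with
  | zero => simp [tl, trunc, PP]
  | succ j ih =>
    rw [tl, trunc, Finset.sum_eq_single (j + 1)]
    · rw [ih, PP_succ]
      push_cast
      rw [mul_inv, div_eq_mul_inv]
    · intro M hM hne
      rw [Finset.mem_Ico] at hM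
      rw [trunc_zero s j M hM.1 (by omega), zero_div]
    · intro h
      exact absurd (Finset.mem_Ico.2 ⟨by omega, by omega⟩) h

lemma tsum_sq : Summable (fun m : ℕ => 1 / ((m + 1 : ℕ) : ℝ) ^ 2) ∧
    ∑' m : ℕ, 1 / ((m + 1 : ℕ) : ℝ) ^ 2 ≤ 2 := by
  have h := hasSum_zeta_two
  have h1 : Summable fun m : ℕ => 1 / ((m + 1 : ℕ) : ℝ) ^ 2 :=
    (summable_nat_add_iff 1 (f := fun n : ℕ => 1 / (n : ℝ) ^ 2)).2 h.summable
  refine ⟨h1, ?_⟩
  have h2 := h.tsum_eq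
  rw [h.summable.tsum_eq_zero_add] at h2
  have h3 : Real.pi ^ 2 / 6 ≤ 2 := by
    have := Real.pi_lt_d2
    have := Real.pi_pos
    nlinarith
  simp only [Nat.cast_zero, ne_eq, OfNat.ofNat_ne_zero, not_false_eq_true, zero_pow, div_zero,
    zero_add] at h2
  push_cast at h2 ⊢
  rw [h2]
  exact h3

/-- the relative error -/
noncomputable def err (k a : ℕ) : ℝ := 2 * (k : ℝ) ^ a * ((k : ℝ) + 1) ^ (k + 1) / ((k : ℝ) + 1) ^ a

lemma mzv_bounds (s : ℕ → ℕ) (j a : ℕ) (ha : j + 3 ≤ a) :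
    ((PP s j : ℕ) : ℝ)⁻¹ / ((j + 1 : ℕ) : ℝ) ^ a ≤ mzv (a :: tl s j) ∧
    mzv (a :: tl s j) ≤ ((PP s j : ℕ) : ℝ)⁻¹ / ((j + 1 : ℕ) : ℝ) ^ a * (1 + err (j + 1) a) := by
  have hPP : (0 : ℝ) < ((PP s j : ℕ) : ℝ) := by exact_mod_cast PP_pos s j
  set f : ℕ → ℝ := fun m => trunc (tl s j) (m + 1) / ((m + 1 : ℕ) : ℝ) ^ a with hf
  have hf0 : ∀ m, 0 ≤ f m := fun m => div_nonneg (trunc_nonneg _ _) (by positivity)
  -- bound of a general term
  have hb : ∀ m, j + 1 ≤ m → f m ≤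
      ((PP s j : ℕ) : ℝ)⁻¹ * (1 / ((j + 2 : ℕ) : ℝ) ^ (a - j - 2)) * (1 / ((m + 1 : ℕ) : ℝ) ^ 2) := by
    intro m hm
    have h1 := trunc_le s j (m + 1) (by omega)
    have h2 : (((m + 1 - 1).choose j : ℕ) : ℝ) ≤ ((m + 1 : ℕ) : ℝ) ^ j := by
      rw [Nat.add_sub_cancel]
      exact_mod_cast (Nat.choose_le_pow m j).trans (Nat.pow_le_pow_left (Nat.le_succ m) j)
    have hm1 : (0 : ℝ) < ((m + 1 : ℕ) : ℝ) := by positivity
    have hsplit : ((m + 1 : ℕ) : ℝ) ^ a =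
        ((m + 1 : ℕ) : ℝ) ^ j * (((m + 1 : ℕ) : ℝ) ^ (a - j - 2) * ((m + 1 : ℕ) : ℝ) ^ 2) := by
      rw [← pow_add, ← pow_add]
      congr 1
      omega
    have h3 : ((j + 2 : ℕ) : ℝ) ^ (a - j - 2) ≤ ((m + 1 : ℕ) : ℝ) ^ (a - j - 2) :=
      pow_le_pow_left₀ (by positivity) (by exact_mod_cast (by omega : j + 2 ≤ m + 1)) _
    calc f m ≤ (((PP s j : ℕ) : ℝ)⁻¹ * ((m + 1 : ℕ) : ℝ) ^ j) / ((m + 1 : ℕ) : ℝ) ^ a := by
          rw [hf]
          refine div_le_div_of_nonneg_right (h1.trans ?_) (by positivity)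
          exact mul_le_mul_of_nonneg_left h2 (by positivity)
      _ = ((PP s j : ℕ) : ℝ)⁻¹ * (1 / ((m + 1 : ℕ) : ℝ) ^ (a - j - 2)) *
            (1 / ((m + 1 : ℕ) : ℝ) ^ 2) := by
          rw [hsplit]
          field_simp
      _ ≤ _ := by
          refine mul_le_mul_of_nonneg_right ?_ (by positivity)
          refine mul_le_mul_of_nonneg_left ?_ (by positivity)
          exact one_div_le_one_div_of_le (by positivity) h3
  have hz : ∀ m, m < j → f m = 0 := by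
    intro m hm
    rw [hf]
    show trunc (tl s j) (m + 1) / _ = 0
    rw [trunc_zero s j (m + 1) (by omega) (by omega), zero_div]
  have hj : f j = ((PP s j : ℕ) : ℝ)⁻¹ / ((j + 1 : ℕ) : ℝ) ^ a := by
    rw [hf]
    show trunc (tl s j) (j + 1) / _ = _
    rw [trunc_eq]
  have hsum : Summable f := by
    rw [← summable_nat_add_iff (j + 1)]
    refine Summable.of_nonneg_of_le (fun m => hf0 _) (fun m => hb (m + (j + 1)) (by omega)) ?_
    exact ((summable_nat_add_iff (j + 1)).2 tsum_sq.1).mul_left _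
  have hval : mzv (a :: tl s j) = ∑' m, f m := by rw [mzv]
  have hdec : ∑' m, f m = f j + ∑' m, f (m + (j + 1)) := by
    rw [← hsum.sum_add_tsum_nat_add (j + 1), Finset.sum_range_succ,
      Finset.sum_eq_zero fun m hm => hz m (Finset.mem_range.1 hm), zero_add]
  have htail0 : 0 ≤ ∑' m, f (m + (j + 1)) := tsum_nonneg fun m => hf0 _
  have htail : ∑' m, f (m + (j + 1)) ≤
      ((PP s j : ℕ) : ℝ)⁻¹ * (1 / ((j + 2 : ℕ) : ℝ) ^ (a - j - 2)) * 2 := by
    have h1 : Summable fun m : ℕ => 1 / ((m + (j + 1) + 1 : ℕ) : ℝ) ^ 2 :=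
      (summable_nat_add_iff (j + 1)).2 tsum_sq.1
    calc ∑' m, f (m + (j + 1)) ≤ ∑' m : ℕ, ((PP s j : ℕ) : ℝ)⁻¹ *
            (1 / ((j + 2 : ℕ) : ℝ) ^ (a - j - 2)) * (1 / ((m + (j + 1) + 1 : ℕ) : ℝ) ^ 2) :=
          Summable.tsum_le_tsum (fun m => hb (m + (j + 1)) (by omega))
            ((summable_nat_add_iff (j + 1)).2 hsum) (h1.mul_left _)
      _ = ((PP s j : ℕ) : ℝ)⁻¹ * (1 / ((j + 2 : ℕ) : ℝ) ^ (a - j - 2)) *
            ∑' m : ℕ, (1 / ((m + (j + 1) + 1 : ℕ) : ℝ) ^ 2) := tsum_mul_left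
      _ ≤ _ := by
          refine mul_le_mul_of_nonneg_left ?_ (by positivity)
          have h2 := tsum_sq.1.sum_add_tsum_nat_add (j + 1)
          have h3 : 0 ≤ ∑ i ∈ Finset.range (j + 1), 1 / ((i + 1 : ℕ) : ℝ) ^ 2 :=
            Finset.sum_nonneg fun i _ => by positivity
          have h4 := tsum_sq.2
          linarith
  constructor
  · rw [hval, hdec, hj]
    linarith
  · rw [hval, hdec, hj, mul_add, mul_one]
    refine add_le_add le_rfl (htail.trans (le_of_eq ?_))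
    unfold err
    have e1 : ((j + 2 : ℕ) : ℝ) = ((j + 1 : ℕ) : ℝ) + 1 := by push_cast; ring
    rw [e1]
    have hk : (0 : ℝ) < ((j + 1 : ℕ) : ℝ) := by positivity
    have e2 : (((j + 1 : ℕ) : ℝ) + 1) ^ a =
        (((j + 1 : ℕ) : ℝ) + 1) ^ (a - j - 2) * (((j + 1 : ℕ) : ℝ) + 1) ^ (j + 1 + 1) := by
      rw [← pow_add]
      congr 1
      omega
    rw [e2]
    field_simp

lemma err_le (k a : ℕ) (hk : 1 ≤ k) :
    err k a ≤ 2 * ((k : ℝ) + 1) ^ (k + 1) * Real.exp (-(a / ((k : ℝ) + 1))) := by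
  have hk0 : (0 : ℝ) < (k : ℝ) + 1 := by positivity
  have h1 : (k : ℝ) / ((k : ℝ) + 1) ≤ Real.exp (-(1 / ((k : ℝ) + 1))) := by
    have h2 := Real.add_one_le_exp (-(1 / ((k : ℝ) + 1)))
    refine le_trans (le_of_eq ?_) h2
    field_simp
    ring
  have h3 : ((k : ℝ) / ((k : ℝ) + 1)) ^ a ≤ Real.exp (-(a / ((k : ℝ) + 1))) := by
    refine (pow_le_pow_left₀ (by positivity) h1 a).trans (le_of_eq ?_)
    rw [← Real.exp_nat_mul]
    congr 1
    ring
  have h4 : err k a = 2 * ((k : ℝ) + 1) ^ (k + 1) * ((k : ℝ) / ((k : ℝ) + 1)) ^ a := by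
    unfold err
    rw [div_pow]
    ring
  rw [h4]
  exact mul_le_mul_of_nonneg_left h3 (by positivity)

/-- **Two values.** An integral relation between two values forces the relation between the leading terms. -/
theorem two_values (s s' : ℕ → ℕ) (j a a' α β : ℕ) (δ : ℝ) (ha : j + 3 ≤ a) (haa : a ≤ a')
    (he : err (j + 1) a ≤ δ) (he' : err (j + 1) a' ≤ δ)
    (hδ : δ * (β * PP s j : ℕ) < 1) (h : (α : ℝ) * mzv (a :: tl s j) = β * mzv (a' :: tl s' j)) :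
    α * (j + 1) ^ (a' - a) * PP s' j = β * PP s j := by
  obtain ⟨h1, h2⟩ := mzv_bounds s j a ha
  obtain ⟨h3, h4⟩ := mzv_bounds s' j a' (by omega)
  have hP : (0 : ℝ) < ((PP s j : ℕ) : ℝ) := by exact_mod_cast PP_pos s j
  have hP' : (0 : ℝ) < ((PP s' j : ℕ) : ℝ) := by exact_mod_cast PP_pos s' j
  have hk : (0 : ℝ) < ((j + 1 : ℕ) : ℝ) := by positivity
  have hka : (0 : ℝ) < ((j + 1 : ℕ) : ℝ) ^ a := by positivity
  have hsplit : ((j + 1 : ℕ) : ℝ) ^ a' = ((j + 1 : ℕ) : ℝ) ^ (a' - a) * ((j + 1 : ℕ) : ℝ) ^ a := by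
    rw [← pow_add]
    congr 1
    omega
  have hkd : (0 : ℝ) < ((j + 1 : ℕ) : ℝ) ^ (a' - a) := by positivity
  have he0 : 0 ≤ err (j + 1) a := by unfold err; positivity
  have hδ0 : 0 ≤ δ := he0.trans he
  -- the two inequalities
  set x : ℝ := mzv (a :: tl s j) with hx
  set y : ℝ := mzv (a' :: tl s' j) with hy
  set P : ℝ := ((PP s j : ℕ) : ℝ) with hPd
  set P' : ℝ := ((PP s' j : ℕ) : ℝ) with hPd'
  set K : ℝ := ((j + 1 : ℕ) : ℝ) ^ a with hK
  set Kd : ℝ := ((j + 1 : ℕ) : ℝ) ^ (a' - a) with hKd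
  have hα : (0 : ℝ) ≤ α := by positivity
  have hβ : (0 : ℝ) ≤ β := by positivity
  have b1 : P⁻¹ / K ≤ x := h1
  have b2 : x ≤ P⁻¹ / K * (1 + δ) := h2.trans (mul_le_mul_of_nonneg_left (by linarith) (by positivity))
  have b3 : P'⁻¹ / (Kd * K) ≤ y := by rw [← hsplit]; exact h3
  have b4 : y ≤ P'⁻¹ / (Kd * K) * (1 + δ) := by
    rw [← hsplit]
    exact h4.trans (mul_le_mul_of_nonneg_left (by linarith) (by positivity))
  have c1 : (α : ℝ) * Kd * P' ≤ β * P * (1 + δ) := by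
    have e1 : (α : ℝ) * (P⁻¹ / K) ≤ β * (P'⁻¹ / (Kd * K) * (1 + δ)) :=
      (mul_le_mul_of_nonneg_left b1 hα).trans (h.le.trans (mul_le_mul_of_nonneg_left b4 hβ))
    have e2 := mul_le_mul_of_nonneg_right e1 (by positivity : (0 : ℝ) ≤ P * P' * Kd * K)
    calc (α : ℝ) * Kd * P' = (α : ℝ) * (P⁻¹ / K) * (P * P' * Kd * K) := by field_simp
      _ ≤ β * (P'⁻¹ / (Kd * K) * (1 + δ)) * (P * P' * Kd * K) := e2
      _ = β * P * (1 + δ) := by field_simp
  have c2 : (β : ℝ) * P ≤ α * Kd * P' * (1 + δ) := by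
    have e1 : (β : ℝ) * (P'⁻¹ / (Kd * K)) ≤ α * (P⁻¹ / K * (1 + δ)) :=
      (mul_le_mul_of_nonneg_left b3 hβ).trans (h.ge.trans (mul_le_mul_of_nonneg_left b2 hα))
    have e2 := mul_le_mul_of_nonneg_right e1 (by positivity : (0 : ℝ) ≤ P * P' * Kd * K)
    calc (β : ℝ) * P = (β : ℝ) * (P'⁻¹ / (Kd * K)) * (P * P' * Kd * K) := by field_simp
      _ ≤ α * (P⁻¹ / K * (1 + δ)) * (P * P' * Kd * K) := e2
      _ = α * Kd * P' * (1 + δ) := by field_simp
  -- integers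
  set X : ℕ := α * (j + 1) ^ (a' - a) * PP s' j with hX
  set Y : ℕ := β * PP s j with hY
  have hXr : (X : ℝ) = α * Kd * P' := by rw [hX, hKd, hPd']; push_cast; ring
  have hYr : (Y : ℝ) = β * P := by rw [hY, hPd]; push_cast; ring
  rw [← hXr, ← hYr] at c1 c2
  rcases lt_trichotomy X Y with hlt | heq | hgt
  · exfalso
    have h5 : (X : ℝ) + 1 ≤ Y := by exact_mod_cast hlt
    have h6 : δ * X ≤ δ * Y := mul_le_mul_of_nonneg_left (by linarith) hδ0
    nlinarith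
  · exact heq
  · exfalso
    have h5 : (Y : ℝ) + 1 ≤ X := by exact_mod_cast hgt
    nlinarith

end Pool.Agent.Run7.h792.MZ
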