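import Mathlib

/-!
# Exponentially many sets, no one of them mostly covered by `m - 1` others (helper792)
-/

set_option autoImplicit false

open Finset

namespace Pool.Agent.Run7.h792.MZ

/-- the number of agreements -/
def ag {w s : ℕ} (x y : Fin w → Fin s) : ℕ := (Finset.univ.filter fun i => x i = y i).card

lemma sum_ag {w s : ℕ} (x : Fin w → Fin s) :
    ∑ y : Fin w → Fin s, 8 ^ ag x y = (s + 7) ^ w := by
  classical
  have h1 : ∀ y : Fin w → Fin s, 8 ^ ag x y = ∏ i, (if x i = y i then 8 else 1) := by
    intro y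
    unfold ag
    rw [Finset.prod_ite, Finset.prod_const, Finset.prod_const_one, mul_one]
  have h2 := Finset.prod_univ_sum (fun _ : Fin w => (Finset.univ : Finset (Fin s)))
    (fun i v => if x i = v then 8 else 1)
  rw [Fintype.piFinset_univ] at h2
  rw [Finset.sum_congr rfl fun y _ => h1 y, ← h2]
  have h3 : ∀ i : Fin w, ∑ v : Fin s, (if x i = v then 8 else 1) = s + 7 := by
    intro i
    have h4 : ∀ v : Fin s, (if x i = v then 8 else 1) = 1 + (if x i = v then 7 else 0) := by
      intro v
      split_ifs <;> rfl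
    rw [Finset.sum_congr rfl fun v _ => h4 v, Finset.sum_add_distrib, Finset.sum_ite_eq,
      if_pos (Finset.mem_univ _)]
    simp
  rw [Finset.prod_congr rfl fun i _ => h3 i, Finset.prod_const, Finset.card_univ, Fintype.card_fin]

theorem exists_family (Ω : Finset ℕ) (m j : ℕ) (hm : 1 ≤ m) (hj : 1 ≤ j)
    (h : 28 * m ^ 2 * j ≤ Ω.card) :
    ∃ C : Finset (Finset ℕ), (∀ A ∈ C, A ⊆ Ω) ∧ 2 ^ j ≤ C.card ∧
      ∀ V : Finset (Finset ℕ), V ⊆ C → V.card ≤ m → ∀ A ∈ V,
        m * j ≤ (A \ (V.erase A).biUnion id).card := by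
  classical
  set w := 2 * m * j with hw
  set s := 14 * m with hs
  have hs1 : 1 ≤ s := by omega
  set fam : Finset (Finset (Fin w → Fin s)) := Finset.univ.filter
    (fun C => ∀ x ∈ C, ∀ y ∈ C, x ≠ y → ag x y < j) with hfam
  have hne : fam.Nonempty := ⟨∅, by simp [hfam]⟩
  obtain ⟨C, hC, hmax⟩ := Finset.exists_max_image fam Finset.card hne
  rw [hfam, Finset.mem_filter] at hC
  have hC2 := hC.2
  have hagcomm : ∀ x y : Fin w → Fin s, ag x y = ag y x := by
    intro x y
    unfold ag
    congr 1
    ext i
    simp only [Finset.mem_filter, Finset.mem_univ, true_and]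
    exact eq_comm
  -- covering
  have hcov : ∀ y : Fin w → Fin s, ∃ x ∈ C, j ≤ ag x y := by
    intro y
    by_contra hno
    push Not at hno
    have hyC : y ∉ C := by
      intro hy
      have h1 := hno y hy
      unfold ag at h1
      simp only [Finset.filter_true, Finset.card_univ, Fintype.card_fin] at h1
      have : j ≤ 2 * m * j := by nlinarith
      omega
    have hins : insert y C ∈ fam := by
      rw [hfam, Finset.mem_filter]
      refine ⟨Finset.mem_univ _, ?_⟩
      intro x hx x' hx' hne
      rw [Finset.mem_insert] at hx hx'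
      rcases hx with rfl | hx
      · rcases hx' with rfl | hx'
        · exact absurd rfl hne
        · rw [hagcomm]
          exact hno x' hx'
      · rcases hx' with rfl | hx'
        · exact hno x hx
        · exact hC2 x hx x' hx' hne
    have := hmax _ hins
    rw [Finset.card_insert_of_notMem hyC] at this
    omega
  -- the size
  have hball : ∀ x : Fin w → Fin s,
      (Finset.univ.filter fun y => j ≤ ag x y).card * 8 ^ j ≤ (s + 7) ^ w := by
    intro x
    rw [← sum_ag x, ← smul_eq_mul, ← Finset.sum_const]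
    refine (Finset.sum_le_sum (g := fun y => 8 ^ ag x y) fun y hy => ?_).trans
      (Finset.sum_le_sum_of_subset (Finset.filter_subset _ _))
    exact Nat.pow_le_pow_right (by norm_num) (Finset.mem_filter.1 hy).2
  have hcount : s ^ w * 8 ^ j ≤ C.card * (s + 7) ^ w := by
    have h1 : s ^ w ≤ ∑ x ∈ C, (Finset.univ.filter fun y => j ≤ ag x y).card := by
      calc s ^ w = (Finset.univ : Finset (Fin w → Fin s)).card := by
            rw [Finset.card_univ, Fintype.card_fun, Fintype.card_fin, Fintype.card_fin]
        _ ≤ (C.biUnion fun x => Finset.univ.filter fun y => j ≤ ag x y).card := by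
            refine Finset.card_le_card fun y _ => ?_
            obtain ⟨x, hx, hxy⟩ := hcov y
            rw [Finset.mem_biUnion]
            exact ⟨x, hx, Finset.mem_filter.2 ⟨Finset.mem_univ _, hxy⟩⟩
        _ ≤ _ := Finset.card_biUnion_le
    calc s ^ w * 8 ^ j ≤ (∑ x ∈ C, (Finset.univ.filter fun y => j ≤ ag x y).card) * 8 ^ j :=
          Nat.mul_le_mul_right _ h1
      _ = ∑ x ∈ C, (Finset.univ.filter fun y => j ≤ ag x y).card * 8 ^ j := Finset.sum_mul _ _ _
      _ ≤ ∑ _x ∈ C, (s + 7) ^ w := Finset.sum_le_sum fun x _ => hball x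
      _ = C.card * (s + 7) ^ w := by rw [Finset.sum_const, smul_eq_mul]
  have hfour : ((s : ℝ) + 7) ^ w ≤ (s : ℝ) ^ w * 4 ^ j := by
    have hsr : (0 : ℝ) < s := by exact_mod_cast (by omega : 0 < s)
    have h1 : (s : ℝ) + 7 ≤ s * Real.exp (7 / s) := by
      have h2 := Real.add_one_le_exp (7 / (s : ℝ))
      calc (s : ℝ) + 7 = s * (7 / s + 1) := by field_simp; ring
        _ ≤ s * Real.exp (7 / s) := mul_le_mul_of_nonneg_left h2 hsr.le
    calc ((s : ℝ) + 7) ^ w ≤ (s * Real.exp (7 / s)) ^ w := pow_le_pow_left₀ (by positivity) h1 w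
      _ = (s : ℝ) ^ w * Real.exp (j : ℝ) := by
          rw [mul_pow, ← Real.exp_nat_mul]
          congr 2
          rw [hw, hs]
          push_cast
          have : (m : ℝ) ≠ 0 := by positivity
          field_simp
          ring
      _ ≤ (s : ℝ) ^ w * 4 ^ j := by
          refine mul_le_mul_of_nonneg_left ?_ (by positivity)
          rw [show (j : ℝ) = (j : ℝ) * 1 by ring, Real.exp_nat_mul]
          refine pow_le_pow_left₀ (by positivity) ?_ j
          have := Real.exp_one_lt_d9
          linarith
  have hcard : 2 ^ j ≤ C.card := by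
    have hfour' : (s + 7) ^ w ≤ s ^ w * 4 ^ j := by exact_mod_cast hfour
    have h1 : s ^ w * 8 ^ j ≤ C.card * (s ^ w * 4 ^ j) :=
      hcount.trans (Nat.mul_le_mul_left _ hfour')
    have h2 : 0 < s ^ w * 4 ^ j := by positivity
    refine Nat.le_of_mul_le_mul_right (c := s ^ w * 4 ^ j) (le_trans (le_of_eq ?_) h1) h2
    have h8 : (8 : ℕ) ^ j = 2 ^ j * 4 ^ j := by
      rw [← mul_pow]
      norm_num
    rw [h8]
    ring
  -- the sets
  obtain ⟨e⟩ : Nonempty (Fin w × Fin s ↪ Ω) := by
    refine Function.Embedding.nonempty_of_card_le ?_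
    rw [Fintype.card_prod, Fintype.card_fin, Fintype.card_fin, Fintype.card_coe]
    refine le_trans (le_of_eq ?_) h
    rw [hw, hs]
    ring
  set S : (Fin w → Fin s) → Finset ℕ := fun x =>
    (Finset.univ : Finset (Fin w)).image fun i => (e (i, x i)).1 with hS
  have hinji : ∀ x : Fin w → Fin s, Function.Injective fun i : Fin w => (e (i, x i)).1 := by
    intro x i i' hii
    exact (Prod.ext_iff.1 (e.injective (Subtype.ext hii))).1
  have hScard : ∀ x, (S x).card = w := by
    intro x
    rw [hS]
    simp only
    rw [Finset.card_image_of_injective _ (hinji x), Finset.card_univ, Fintype.card_fin]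
  have hinter : ∀ x y, (S x ∩ S y).card ≤ ag x y := by
    intro x y
    have h1 : S x ∩ S y ⊆ (Finset.univ.filter fun i => x i = y i).image fun i => (e (i, x i)).1 := by
      intro q hq
      rw [Finset.mem_inter] at hq
      obtain ⟨hq1, hq2⟩ := hq
      rw [hS] at hq1 hq2
      simp only [Finset.mem_image, Finset.mem_univ, true_and] at hq1 hq2
      obtain ⟨i, hi⟩ := hq1
      obtain ⟨i', hi'⟩ := hq2
      have h2 := Prod.ext_iff.1 (e.injective (Subtype.ext (hi.trans hi'.symm)))
      simp only at h2
      obtain ⟨h3, h4⟩ := h2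
      subst h3
      rw [Finset.mem_image]
      exact ⟨i, Finset.mem_filter.2 ⟨Finset.mem_univ _, h4⟩, hi⟩
    exact (Finset.card_le_card h1).trans Finset.card_image_le
  have hSinj : Set.InjOn S (C : Set (Fin w → Fin s)) := by
    intro x hx y hy hxy
    by_contra hne
    have h1 := hC2 x hx y hy hne
    have h2 : w ≤ ag x y := by
      unfold ag
      have h3 : (Finset.univ.filter fun i => x i = y i) = Finset.univ := by
        rw [Finset.filter_eq_self]
        intro i _
        have h4 : (e (i, x i)).1 ∈ S y := by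
          rw [← hxy, hS]
          exact Finset.mem_image_of_mem _ (Finset.mem_univ i)
        rw [hS] at h4
        simp only [Finset.mem_image, Finset.mem_univ, true_and] at h4
        obtain ⟨i', hi'⟩ := h4
        have h5 := Prod.ext_iff.1 (e.injective (Subtype.ext hi'))
        simp only at h5
        obtain ⟨h6, h7⟩ := h5
        subst h6
        exact h7.symm
      rw [h3, Finset.card_univ, Fintype.card_fin]
    have : j ≤ 2 * m * j := by nlinarith
    omega
  refine ⟨C.image S, ?_, ?_, ?_⟩
  · intro A hA
    obtain ⟨x, -, rfl⟩ := Finset.mem_image.1 hA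
    intro q hq
    rw [hS] at hq
    simp only [Finset.mem_image, Finset.mem_univ, true_and] at hq
    obtain ⟨i, rfl⟩ := hq
    exact (e (i, x i)).2
  · rw [Finset.card_image_of_injOn hSinj]
    exact hcard
  · intro V hV hVm A hA
    obtain ⟨x, hx, rfl⟩ := Finset.mem_image.1 (hV hA)
    have h1 : S x ⊆ (S x \ (V.erase (S x)).biUnion id) ∪ (V.erase (S x)).biUnion (fun B => S x ∩ B) := by
      intro q hq
      rw [Finset.mem_union]
      by_cases hqU : q ∈ (V.erase (S x)).biUnion id
      · right
        rw [Finset.mem_biUnion] at hqU ⊢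
        obtain ⟨B, hB, hqB⟩ := hqU
        exact ⟨B, hB, Finset.mem_inter.2 ⟨hq, hqB⟩⟩
      · left
        exact Finset.mem_sdiff.2 ⟨hq, hqU⟩
    have h2 : ((V.erase (S x)).biUnion (fun B => S x ∩ B)).card ≤ (m - 1) * j := by
      refine Finset.card_biUnion_le.trans ?_
      have h3 : ∀ B ∈ V.erase (S x), (S x ∩ B).card ≤ j := by
        intro B hB
        obtain ⟨hB1, hB2⟩ := Finset.mem_erase.1 hB
        obtain ⟨y, hy, rfl⟩ := Finset.mem_image.1 (hV hB2)
        have hxy : x ≠ y := by
          rintro rfl
          exact hB1 rfl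
        exact (hinter x y).trans (hC2 x hx y hy hxy).le
      refine (Finset.sum_le_sum h3).trans ?_
      rw [Finset.sum_const, smul_eq_mul, Finset.card_erase_of_mem hA]
      exact Nat.mul_le_mul_right _ (by omega)
    have h4 := (Finset.card_le_card h1).trans (Finset.card_union_le _ _)
    rw [hScard] at h4
    have h5 : 2 * m * j = m * j + m * j := by ring
    have h6 : (m - 1) * j ≤ m * j := Nat.mul_le_mul_right _ (by omega)
    omega

end Pool.Agent.Run7.h792.MZ
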