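import Pool.Agent.Run7.h792.MZ.Asy
import Pool.Agent.Run7.h792.MZ.Code

/-!
# Many multiple zeta values of given weight without relations between any two of them (helper792)
-/

set_option autoImplicit false

open Finset Filter

namespace Pool.Agent.Run7.h792.MZ

open scoped symmDiff

/-- the bound of the error -/
noncomputable def dl (N k : ℕ) : ℝ :=
  2 * ((k : ℝ) + 1) ^ (k + 1) * Real.exp (-(((N : ℝ) - 2 * k) / ((k : ℝ) + 1)))

lemma err_le_dl (N k n t : ℕ) (hk : 1 ≤ k) (ht : t ≤ k) (hn : N ≤ n) (hn2 : 2 * k ≤ n) :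
    err k (n - (k - 1 + t)) ≤ dl N k := by
  refine (err_le k _ hk).trans ?_
  unfold dl
  refine mul_le_mul_of_nonneg_left (Real.exp_le_exp.2 (neg_le_neg ?_)) (by positivity)
  refine div_le_div_of_nonneg_right ?_ (by positivity)
  have h1 : n ≤ (n - (k - 1 + t)) + 2 * k := by omega
  have h2 : (n : ℝ) ≤ ((n - (k - 1 + t) : ℕ) : ℝ) + 2 * k := by exact_mod_cast h1
  have h3 : (N : ℝ) ≤ n := by exact_mod_cast hn
  linarith

/-- the first inequality between the parameters -/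
lemma dl_small (N k : ℕ) (hk : 1 ≤ k) (L : ℝ) (hL1 : 1 ≤ L) (hLk : Real.log ((k : ℝ) + 1) ≤ L)
    (hkN : ((k : ℝ) + 1) ^ 2 * (16 * L) ≤ N) :
    dl N k * (Real.exp k * (k : ℝ) ^ (2 * k)) < 1 := by
  have hk0 : (0 : ℝ) < (k : ℝ) + 1 := by positivity
  have hk1 : (1 : ℝ) ≤ k := by exact_mod_cast hk
  have hlog0 : 0 ≤ Real.log (k : ℝ) := Real.log_natCast_nonneg k
  have hlogk : Real.log (k : ℝ) ≤ L := (Real.log_le_log (by positivity) (by linarith)).trans hLk
  have hlogk1 : 0 ≤ Real.log ((k : ℝ) + 1) := Real.log_nonneg (by linarith)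
  have e1 : dl N k * (Real.exp k * (k : ℝ) ^ (2 * k)) =
      Real.exp (Real.log 2 + (k + 1) * Real.log ((k : ℝ) + 1) -
        ((N : ℝ) - 2 * k) / ((k : ℝ) + 1) + k + 2 * k * Real.log k) := by
    unfold dl
    rw [Real.exp_add, Real.exp_add, Real.exp_sub, Real.exp_add, Real.exp_neg,
      Real.exp_log (by norm_num)]
    have e2 : ((k : ℝ) + 1) ^ (k + 1) = Real.exp ((k + 1) * Real.log ((k : ℝ) + 1)) := by
      rw [show ((k : ℝ) + 1) = ((k + 1 : ℕ) : ℝ) by push_cast; ring, Real.exp_nat_mul,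
        Real.exp_log (by positivity)]
    have e3 : (k : ℝ) ^ (2 * k) = Real.exp (2 * k * Real.log k) := by
      rw [show (2 * (k : ℝ)) = ((2 * k : ℕ) : ℝ) by push_cast; ring, Real.exp_nat_mul,
        Real.exp_log (by positivity)]
    rw [e2, e3]
    field_simp
  rw [e1, Real.exp_lt_one_iff]
  have h2 : Real.log 2 ≤ 1 := by
    have := Real.log_two_lt_d9
    linarith
  have h3 : ((k : ℝ) + 1) * Real.log ((k : ℝ) + 1) ≤ (k + 1) * L :=
    mul_le_mul_of_nonneg_left hLk hk0.le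
  have h4 : 2 * (k : ℝ) * Real.log k ≤ 2 * (k + 1) * L :=
    mul_le_mul (by linarith) hlogk hlog0 (by positivity)
  have h5 : (k : ℝ) ≤ (k + 1) * L := by nlinarith
  have h6 : (5 * (k + 1) * L : ℝ) < ((N : ℝ) - 2 * k) / ((k : ℝ) + 1) := by
    rw [lt_div_iff₀ hk0]
    nlinarith
  have h7 : (1 : ℝ) ≤ (k + 1) * L := by nlinarith
  nlinarith

/-- the second inequality between the parameters -/
lemma pow_big (k t : ℕ) (hk : 400000 ≤ k) (hlog : Real.log k ≤ √(k : ℝ) / 100)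
    (ht : (k : ℝ) ≤ 4 * (t * Real.log k)) (e : ℕ) (he : t / 12 ≤ 2 * e) :
    Real.exp ((k : ℝ) / 400) < ((k : ℝ) / 8) ^ e := by
  have hk0 : (400000 : ℝ) ≤ k := by exact_mod_cast hk
  have hlog8 : Real.log 8 ≤ Real.log k / 2 := by
    have h1 : Real.log (8 ^ 2 : ℝ) ≤ Real.log k := Real.log_le_log (by norm_num) (by linarith)
    rw [Real.log_pow] at h1
    push_cast at h1
    linarith
  have h1 : (t : ℝ) ≤ 24 * e + 12 := by
    have : t ≤ 24 * e + 12 := by omega
    exact_mod_cast this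
  have h2 : Real.log k / 2 ≤ Real.log ((k : ℝ) / 8) := by
    rw [Real.log_div (by positivity) (by norm_num)]
    linarith
  have hlogpos : 0 < Real.log (k : ℝ) := Real.log_pos (by linarith)
  have h3 : (k : ℝ) ≤ 4 * ((24 * e + 12) * Real.log k) :=
    ht.trans (mul_le_mul_of_nonneg_left (mul_le_mul_of_nonneg_right h1 hlogpos.le) (by norm_num))
  have hs : √(k : ℝ) * √(k : ℝ) = k := Real.mul_self_sqrt (by positivity)
  have hs1 : 1 ≤ √(k : ℝ) := by rw [Real.one_le_sqrt]; linarith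
  have hsk : √(k : ℝ) ≤ k := by nlinarith
  have h4 : (k : ℝ) / 400 < e * Real.log ((k : ℝ) / 8) := by
    have h5 : (e : ℝ) * (Real.log k / 2) ≤ e * Real.log ((k : ℝ) / 8) :=
      mul_le_mul_of_nonneg_left h2 (by positivity)
    nlinarith
  calc Real.exp ((k : ℝ) / 400) < Real.exp (e * Real.log ((k : ℝ) / 8)) := Real.exp_lt_exp.2 h4
    _ = ((k : ℝ) / 8) ^ e := by rw [Real.exp_nat_mul, Real.exp_log (by positivity)]

lemma large_facts (K : ℝ) : ∃ N₀ : ℕ, ∀ N : ℕ, N₀ ≤ N → 1 ≤ Real.log N ∧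
    K ≤ √((N : ℝ) / Real.log N) ∧ 1200 * Real.log N ≤ √((N : ℝ) / Real.log N ^ 3) := by
  have h1 : ∀ᶠ N : ℕ in atTop, 1 ≤ Real.log (N : ℝ) :=
    (Real.tendsto_log_atTop.comp tendsto_natCast_atTop_atTop).eventually_ge_atTop 1
  have h2 := ((Real.isLittleO_log_id_atTop).bound (show (0 : ℝ) < 1 / (K ^ 2 + 1) by positivity))
  have h3 := ((Real.isLittleO_pow_log_id_atTop (n := 5)).bound (show (0 : ℝ) < 1 / 1200 ^ 2 by norm_num))
  have h : ∀ᶠ N : ℕ in atTop, 1 ≤ Real.log N ∧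
    K ≤ √((N : ℝ) / Real.log N) ∧ 1200 * Real.log N ≤ √((N : ℝ) / Real.log N ^ 3) := by
    filter_upwards [h1, tendsto_natCast_atTop_atTop.eventually h2,
      tendsto_natCast_atTop_atTop.eventually h3] with N h1 h2 h3
    have hL0 : 0 < Real.log (N : ℝ) := by linarith
    simp only [id_eq] at h2 h3
    rw [Real.norm_of_nonneg hL0.le, Real.norm_of_nonneg (by positivity : (0 : ℝ) ≤ (N : ℝ))] at h2
    rw [Real.norm_of_nonneg (by positivity : 0 ≤ Real.log (N : ℝ) ^ 5),
      Real.norm_of_nonneg (by positivity : (0 : ℝ) ≤ (N : ℝ))] at h3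
    refine ⟨h1, ?_, ?_⟩
    · refine Real.le_sqrt_of_sq_le ?_
      rw [le_div_iff₀ hL0]
      have h4 : (K ^ 2 + 1) * Real.log (N : ℝ) ≤ N := by
        have h5 : (0 : ℝ) < K ^ 2 + 1 := by positivity
        calc (K ^ 2 + 1) * Real.log (N : ℝ) ≤ (K ^ 2 + 1) * (1 / (K ^ 2 + 1) * N) :=
              mul_le_mul_of_nonneg_left h2 h5.le
          _ = N := by field_simp
      nlinarith
    · refine Real.le_sqrt_of_sq_le ?_
      rw [le_div_iff₀ (by positivity)]
      nlinarith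
  exact eventually_atTop.1 h

/-- **Main theorem.** -/
theorem main : ∃ c : ℝ, 0 < c ∧ ∃ N₀ : ℕ, ∀ N : ℕ, N₀ ≤ N → ∃ W : ℕ → Finset (List ℕ),
    (∀ n, N ≤ n → n ≤ 2 * N →
      (∀ w ∈ W n, ((∀ s ∈ w, 1 ≤ s) ∧ ∀ s ∈ w.head?, 2 ≤ s) ∧ w.sum = n) ∧
      Real.exp (c * √((N : ℝ) / Real.log N ^ 3)) ≤ (W n).card) ∧
    ∀ n n', N ≤ n → n ≤ 2 * N → N ≤ n' → n' ≤ 2 * N → ∀ w ∈ W n, ∀ w' ∈ W n', w ≠ w' →
      ∀ α β : ℤ, |(α : ℝ)| ≤ Real.exp (c * √((N : ℝ) / Real.log N)) →
        |(β : ℝ)| ≤ Real.exp (c * √((N : ℝ) / Real.log N)) →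
        (α : ℝ) * mzv w = β * mzv w' → α = 0 ∧ β = 0 := by
  classical
  obtain ⟨K₀, hK₀⟩ := many_primes
  obtain ⟨N₀, hN₀⟩ := large_facts (16 * (max K₀ 400000 : ℕ) + 16)
  refine ⟨1 / 6400, by norm_num, max N₀ 3, fun N hN => ?_⟩
  obtain ⟨hL1, hy, hX⟩ := hN₀ N ((le_max_left _ _).trans hN)
  have hN3 : 3 ≤ N := (le_max_right _ _).trans hN
  set L : ℝ := Real.log N with hL
  have hNr : (3 : ℝ) ≤ N := by exact_mod_cast hN3
  set Y : ℝ := √((N : ℝ) / L) with hY
  set q : ℕ := ⌊Y / 8⌋₊ with hq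
  set r : ℕ := Nat.log 2 q with hr
  set k : ℕ := 2 ^ r with hk
  have hKpos : (0 : ℝ) ≤ ((max K₀ 400000 : ℕ) : ℝ) := by positivity
  have hY0 : 0 < Y := by linarith
  have hq0 : q ≠ 0 := by
    have : 1 ≤ q := by
      rw [hq, Nat.one_le_floor_iff]
      linarith
    omega
  have hkq : k ≤ q := Nat.pow_log_le_self 2 hq0
  have hqk : q < 2 * k := by
    have := Nat.lt_pow_succ_log_self (b := 2) (by norm_num) q
    rw [pow_succ] at this
    rw [hk, hr]
    omega
  have hkY : (k : ℝ) ≤ Y / 8 := by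
    have h1 : (q : ℝ) ≤ Y / 8 := Nat.floor_le (by positivity)
    have h2 : (k : ℝ) ≤ q := by exact_mod_cast hkq
    linarith
  have hYk : Y / 16 ≤ k := by
    have h1 : Y / 8 < q + 1 := Nat.lt_floor_add_one _
    have h2 : ((q + 1 : ℕ) : ℝ) ≤ ((2 * k : ℕ) : ℝ) := by exact_mod_cast hqk
    push_cast at h2
    linarith
  have hkK : max K₀ 400000 ≤ k := by
    have h1 : ((max K₀ 400000 : ℕ) : ℝ) ≤ k := by linarith
    exact_mod_cast h1
  have hk4 : 400000 ≤ k := (le_max_right _ _).trans hkK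
  obtain ⟨hlogk, hprimes⟩ := hK₀ k ((le_max_left _ _).trans hkK)
  set t : ℕ := (Om k).card with ht
  have htk : t ≤ k := Om_card_le k
  -- sizes
  have hLpos : 0 < L := by linarith
  have hY2 : Y ^ 2 * L = N := by
    rw [hY, Real.sq_sqrt (by positivity)]
    field_simp
  have hkr : (400000 : ℝ) ≤ k := by exact_mod_cast hk4
  have hk12 : ((k : ℝ) + 1) ^ 2 * (16 * L) ≤ N := by
    have h1 : (k : ℝ) + 1 ≤ Y / 4 := by linarith
    have h2 : ((k : ℝ) + 1) ^ 2 ≤ (Y / 4) ^ 2 := pow_le_pow_left₀ (by positivity) h1 2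
    nlinarith
  have hkN : (k : ℝ) + 1 ≤ N := by nlinarith
  have hLk : Real.log ((k : ℝ) + 1) ≤ L := Real.log_le_log (by positivity) hkN
  have hLk' : Real.log (k : ℝ) ≤ L := (Real.log_le_log (by positivity) (by linarith)).trans hLk
  have h5k : 5 * k ≤ N := by
    have : (5 : ℝ) * k ≤ N := by nlinarith
    exact_mod_cast this
  have hr5 : 5 ≤ r := by
    by_contra hcon
    have : k ≤ 2 ^ 5 := Nat.pow_le_pow_right (by norm_num) (by omega)
    omega
  have hdl := dl_small N k (by omega) L hL1 hLk hk12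
  -- the number `X`
  set X : ℝ := √((N : ℝ) / L ^ 3) with hXd
  have hXY : X = Y / L := by
    rw [hXd, hY, show (N : ℝ) / L ^ 3 = (N / L) / L ^ 2 by field_simp, Real.sqrt_div' _ (by positivity),
      Real.sqrt_sq hLpos.le]
  have htX : X / 64 ≤ t := by
    rw [hXY]
    have h1 : (k : ℝ) ≤ 4 * (t * L) :=
      hprimes.trans (mul_le_mul_of_nonneg_left (mul_le_mul_of_nonneg_left hLk' (by positivity)) (by norm_num))
    rw [div_div, div_le_iff₀ (by positivity)]
    linarith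
  have hX1200 : 1200 ≤ X := by nlinarith
  have ht12 : 12 ≤ t := by
    have : (12 : ℝ) ≤ t := by linarith
    exact_mod_cast this
  -- the code
  obtain ⟨C, hC1, hC2, hC3⟩ := exists_code (Om k) (t / 12) (by omega) (by omega)
  set M : ℕ := ⌈Real.exp (X / 400)⌉₊ with hM
  have hMC : (N + 1) * M ≤ C.card := by
    have h1 : (M : ℝ) ≤ 2 * Real.exp (X / 400) := by
      have h2 : (M : ℝ) < Real.exp (X / 400) + 1 := Nat.ceil_lt_add_one (by positivity)
      have h3 : 1 ≤ Real.exp (X / 400) := Real.one_le_exp (by positivity)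
      linarith
    have h4 : ((2 : ℝ) ^ t) ≤ (C.card : ℝ) ^ 2 := by exact_mod_cast hC3
    have h5 : Real.exp (X / 100) ≤ (2 : ℝ) ^ t := by
      have h6 : (2 : ℝ) ^ t = Real.exp (t * Real.log 2) := by
        rw [Real.exp_nat_mul, Real.exp_log (by norm_num)]
      rw [h6, Real.exp_le_exp]
      have h7 := Real.log_two_gt_d9
      nlinarith
    have h6 : Real.exp (X / 200) ≤ C.card := by
      have h7 : Real.exp (X / 200) ^ 2 ≤ (C.card : ℝ) ^ 2 := by
        rw [← Real.exp_nat_mul]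
        refine le_trans (le_of_eq ?_) (h5.trans h4)
        congr 1
        push_cast
        ring
      exact le_of_sq_le_sq h7 (by positivity)
    have h8 : ((N : ℝ) + 1) * 2 ≤ Real.exp (X / 400) := by
      have h9 : (N : ℝ) = Real.exp L := by rw [hL, Real.exp_log (by positivity)]
      have h10 : Real.exp (3 * L) ≤ Real.exp (X / 400) := Real.exp_le_exp.2 (by linarith)
      have h11 : Real.exp (3 * L) = (N : ℝ) ^ 3 := by
        rw [h9, ← Real.exp_nat_mul]
        norm_num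
      rw [h11] at h10
      nlinarith [mul_nonneg (show (0 : ℝ) ≤ N by positivity) (show (0 : ℝ) ≤ (N : ℝ) - 3 by linarith)]
    have h12 : (((N + 1) * M : ℕ) : ℝ) ≤ C.card := by
      push_cast
      calc ((N : ℝ) + 1) * M ≤ ((N : ℝ) + 1) * (2 * Real.exp (X / 400)) :=
            mul_le_mul_of_nonneg_left h1 (by positivity)
        _ = (((N : ℝ) + 1) * 2) * Real.exp (X / 400) := by ring
        _ ≤ Real.exp (X / 400) * Real.exp (X / 400) :=
            mul_le_mul_of_nonneg_right h8 (by positivity)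
        _ = Real.exp (X / 200) := by
            rw [← Real.exp_add]
            congr 1
            ring
        _ ≤ C.card := h6
    exact_mod_cast h12
  obtain ⟨f⟩ : Nonempty (Fin (N + 1) × Fin M ↪ C) := by
    refine Function.Embedding.nonempty_of_card_le ?_
    rw [Fintype.card_prod, Fintype.card_fin, Fintype.card_fin, Fintype.card_coe]
    exact hMC
  -- the separation
  have hsep : ∀ n n' : ℕ, N ≤ n → N ≤ n' → ∀ A ∈ C, ∀ B ∈ C, A ≠ B → ∀ α β : ℤ,
      |(α : ℝ)| ≤ Real.exp ((k : ℝ) / 400) → |(β : ℝ)| ≤ Real.exp ((k : ℝ) / 400) →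
      (α : ℝ) * mzv (wd k n A) = β * mzv (wd k n' B) → α = 0 ∧ β = 0 := by
    intro n n' hn hn' A hA B hB hAB α β hα hβ h
    have hk2 : ((2 : ℝ) ^ r) = (k : ℝ) := by rw [hk]; push_cast; ring
    refine sep r hr5 (dl N k) (Real.exp ((k : ℝ) / 400)) n n' (by omega) (by omega)
      (err_le_dl N k n t (by omega) htk hn (by omega))
      (err_le_dl N k n' t (by omega) htk hn' (by omega)) A B (hC1 A hA) (hC1 B hB) (t / 12)
      (hC2 A hA B hB hAB) ?_ ?_ α β hα hβ h
    · rw [hk2, ← hk]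
      have hdl0 : 0 ≤ dl N k := by unfold dl; positivity
      refine lt_of_le_of_lt (mul_le_mul_of_nonneg_left (mul_le_mul_of_nonneg_right
        (Real.exp_le_exp.2 ?_) (by positivity)) hdl0) hdl
      linarith
    · intro e he
      rw [hk2]
      exact pow_big k t hk4 hlogk hprimes e he
  have hexp1 : ∀ z : ℤ, |(z : ℝ)| ≤ Real.exp (1 / 6400 * Y) → |(z : ℝ)| ≤ Real.exp ((k : ℝ) / 400) :=
    fun z hz => hz.trans (Real.exp_le_exp.2 (by linarith))
  set W : ℕ → Finset (List ℕ) := fun n => if h : n - N < N + 1 then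
    (Finset.univ : Finset (Fin M)).image (fun m => wd k n (f (⟨n - N, h⟩, m)).1) else ∅ with hW
  have hWn : ∀ n, n ≤ 2 * N → ∀ w ∈ W n, ∃ (h : n - N < N + 1) (m : Fin M),
      w = wd k n (f (⟨n - N, h⟩, m)).1 := by
    intro n hn w hw
    have h : n - N < N + 1 := by omega
    rw [hW] at hw
    simp only [dif_pos h] at hw
    obtain ⟨m, -, rfl⟩ := Finset.mem_image.1 hw
    exact ⟨h, m, rfl⟩
  refine ⟨W, fun n hn hn2 => ⟨fun w hw => ?_, ?_⟩, ?_⟩
  · obtain ⟨h, m, rfl⟩ := hWn n hn2 w hw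
    have hA := hC1 _ (f (⟨n - N, h⟩, m)).2
    refine ⟨⟨?_, ?_⟩, wd_sum k n (by omega) (by omega) _ hA⟩
    · intro s hs
      rw [wd, List.mem_cons] at hs
      rcases hs with rfl | hs
      · omega
      · exact wd_pos _ _ s hs
    · intro s hs
      rw [wd, List.head?_cons, Option.mem_some_iff] at hs
      omega
  · have h : n - N < N + 1 := by omega
    have hinj : Function.Injective (fun m : Fin M => wd k n (f (⟨n - N, h⟩, m)).1) := by
      intro m m' hmm
      by_contra hne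
      have hAB : (f (⟨n - N, h⟩, m)).1 ≠ (f (⟨n - N, h⟩, m')).1 := by
        intro heq
        have := f.injective (Subtype.ext heq)
        exact hne (Prod.ext_iff.1 this).2
      have h1 : |((1 : ℤ) : ℝ)| ≤ Real.exp ((k : ℝ) / 400) := by
        rw [Int.cast_one, abs_one]
        exact Real.one_le_exp (by positivity)
      have := hsep n n hn hn _ (f (⟨n - N, h⟩, m)).2 _ (f (⟨n - N, h⟩, m')).2 hAB 1 1 h1 h1
        (by rw [show wd k n (f (⟨n - N, h⟩, m)).1 = wd k n (f (⟨n - N, h⟩, m')).1 from hmm])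
      exact absurd this.1 one_ne_zero
    have hcard : (W n).card = M := by
      rw [hW]
      simp only [dif_pos h]
      rw [Finset.card_image_of_injective _ hinj, Finset.card_univ, Fintype.card_fin]
    rw [hcard]
    refine le_trans (Real.exp_le_exp.2 ?_) (Nat.le_ceil _)
    linarith
  · intro n n' hn hn2 hn' hn2' w hw w' hw' hne α β hα hβ h
    obtain ⟨h1, m, rfl⟩ := hWn n hn2 w hw
    obtain ⟨h2, m', rfl⟩ := hWn n' hn2' w' hw'
    refine hsep n n' hn hn' _ (f (⟨n - N, h1⟩, m)).2 _ (f (⟨n' - N, h2⟩, m')).2 ?_ α β (hexp1 α hα)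
      (hexp1 β hβ) h
    intro heq
    have h3 := Prod.ext_iff.1 (f.injective (Subtype.ext heq))
    have h4 : n - N = n' - N := by simpa using congrArg Fin.val h3.1
    have h5 : n = n' := by omega
    subst h5
    apply hne
    rw [heq]

end Pool.Agent.Run7.h792.MZ
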