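import Pool.Agent.Run7.h792.MZ.Words

/-!
# Linear forms in several values of the same weight (helper792)
-/

set_option autoImplicit false

open Finset

namespace Pool.Agent.Run7.h792.MZ

/-- the first argument of the words -/
def fa (r n : ℕ) : ℕ := n - (2 ^ r - 1 + (Om (2 ^ r)).card)

lemma thirtytwo (r : ℕ) (hr : 5 ≤ r) : 32 ≤ 2 ^ r := by
  calc 32 = 2 ^ 5 := by norm_num
    _ ≤ 2 ^ r := Nat.pow_le_pow_right (by norm_num) hr

/-- bounds for the values -/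
lemma val_bounds (r : ℕ) (hr : 5 ≤ r) (δ : ℝ) (n : ℕ) (hn : 5 * 2 ^ r ≤ n)
    (he : err (2 ^ r) (fa r n) ≤ δ) (A : Finset ℕ) (hA : A ⊆ Om (2 ^ r)) :
    1 ≤ mzv (wd (2 ^ r) n A) * ((2 ^ r - 1).factorial * (∏ q ∈ A, q : ℕ) * ((2 : ℝ) ^ r) ^ fa r n) ∧
    mzv (wd (2 ^ r) n A) * ((2 ^ r - 1).factorial * (∏ q ∈ A, q : ℕ) * ((2 : ℝ) ^ r) ^ fa r n) ≤
      1 + δ := by
  have h32 := thirtytwo r hr
  have hk1 : 2 ^ r - 1 + 1 = 2 ^ r := by omega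
  have hc := Om_card_le (2 ^ r)
  obtain ⟨h1, h2⟩ := mzv_bounds (ex (Om (2 ^ r)).card A) (2 ^ r - 1) (fa r n)
    (by unfold fa; omega)
  rw [hk1, PP_ex _ A hA] at h1 h2
  have hf : (0 : ℝ) < ((2 ^ r - 1).factorial : ℝ) := by exact_mod_cast Nat.factorial_pos _
  have hp : (0 : ℝ) < ((∏ q ∈ A, q : ℕ) : ℝ) := by
    exact_mod_cast Finset.prod_pos fun q hq => (mem_Om.1 (hA hq)).2.1.pos
  have hK : (0 : ℝ) < ((2 : ℝ) ^ r) ^ fa r n := by positivity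
  have hD : (0 : ℝ) < (2 ^ r - 1).factorial * (∏ q ∈ A, q : ℕ) * ((2 : ℝ) ^ r) ^ fa r n := by
    positivity
  have e1 : ((((2 ^ r - 1).factorial * ∏ q ∈ A, q : ℕ) : ℝ)⁻¹ / ((2 ^ r : ℕ) : ℝ) ^ fa r n) *
      ((2 ^ r - 1).factorial * (∏ q ∈ A, q : ℕ) * ((2 : ℝ) ^ r) ^ fa r n) = 1 := by
    push_cast
    push_cast at hp
    field_simp
  have h1' := mul_le_mul_of_nonneg_right h1 hD.le
  have h2' := mul_le_mul_of_nonneg_right h2 hD.le
  change _ ≤ mzv (wd (2 ^ r) n A) * _ at h1'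
  change mzv (wd (2 ^ r) n A) * _ ≤ _ at h2'
  rw [e1] at h1'
  refine ⟨h1', h2'.trans ?_⟩
  rw [mul_assoc, mul_comm (1 + err (2 ^ r) (fa r n)), ← mul_assoc, e1, one_mul]
  linarith

/-- **Separation of several values.** -/
theorem sepm (r : ℕ) (hr : 5 ≤ r) (δ H : ℝ) (n : ℕ) (hn : 5 * 2 ^ r ≤ n)
    (he : err (2 ^ r) (fa r n) ≤ δ) (V : Finset (Finset ℕ)) (hV : ∀ A ∈ V, A ⊆ Om (2 ^ r)) (d : ℕ)
    (hd : ∀ A ∈ V, d ≤ (A \ (V.erase A).biUnion id).card)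
    (hδ : δ * (V.card * H * ((2 : ℝ) ^ r) ^ (2 ^ r)) ≤ 1 / 2)
    (hH0 : 0 ≤ H) (hH : H < ((2 : ℝ) ^ r / 8) ^ d)
    (c : Finset ℕ → ℤ) (hc : ∀ A ∈ V, |(c A : ℝ)| ≤ H) (hne : ∃ A ∈ V, c A ≠ 0) :
    1 / (2 * ((2 : ℝ) ^ r) ^ (fa r n + 2 * 2 ^ r)) ≤ |∑ A ∈ V, c A * mzv (wd (2 ^ r) n A)| := by
  classical
  have h32 := thirtytwo r hr
  have hδ0 : 0 ≤ δ := le_trans (by unfold err; positivity) he
  set K : ℝ := ((2 : ℝ) ^ r) ^ fa r n with hK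
  set F : ℝ := ((2 ^ r - 1).factorial : ℝ) with hF
  set PO : ℕ := ∏ q ∈ Om (2 ^ r), q with hPO
  have hK0 : 0 < K := by positivity
  have hF0 : 0 < F := by rw [hF]; exact_mod_cast Nat.factorial_pos _
  have hPO0 : 0 < PO := Finset.prod_pos fun q hq => (mem_Om.1 hq).2.1.pos
  have hPOr : (0 : ℝ) < PO := by exact_mod_cast hPO0
  have hPOle : (PO : ℝ) ≤ ((2 : ℝ) ^ r) ^ (2 ^ r) := by
    exact_mod_cast prod_le (2 ^ r) (Om (2 ^ r)) (Finset.Subset.refl _)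
  set co : Finset ℕ → ℕ := fun A => ∏ q ∈ Om (2 ^ r) \ A, q with hco
  have hcoPO : ∀ A ∈ V, co A * ∏ q ∈ A, q = PO := fun A hA => Finset.prod_sdiff (hV A hA)
  have hcole : ∀ A ∈ V, (co A : ℝ) ≤ PO := by
    intro A hA
    have h1 : 0 < ∏ q ∈ A, q := Finset.prod_pos fun q hq => (mem_Om.1 (hV A hA hq)).2.1.pos
    have h2 := hcoPO A hA
    have h3 : co A ≤ PO := by
      rw [← h2]
      exact Nat.le_mul_of_pos_right _ h1
    exact_mod_cast h3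
  set Z : ℤ := ∑ A ∈ V, c A * (co A : ℤ) with hZ
  set S : ℝ := ∑ A ∈ V, c A * mzv (wd (2 ^ r) n A) with hS
  set Q : ℝ := F * PO * K with hQ
  have hQ0 : 0 < Q := by positivity
  -- the leading term
  have hmain : |S * Q - Z| ≤ 1 / 2 := by
    have h1 : S * Q - Z = ∑ A ∈ V, (c A : ℝ) * (mzv (wd (2 ^ r) n A) * Q - co A) := by
      rw [hS, hZ]
      push_cast
      rw [Finset.sum_mul, ← Finset.sum_sub_distrib]
      exact Finset.sum_congr rfl fun A _ => by ring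
    rw [h1]
    refine (Finset.abs_sum_le_sum_abs _ _).trans ?_
    have h2 : ∀ A ∈ V, |(c A : ℝ) * (mzv (wd (2 ^ r) n A) * Q - co A)| ≤ H * (δ * PO) := by
      intro A hA
      obtain ⟨b1, b2⟩ := val_bounds r hr δ n hn he A (hV A hA)
      have h3 : ((co A : ℕ) : ℝ) * ((∏ q ∈ A, q : ℕ) : ℝ) = PO := by exact_mod_cast hcoPO A hA
      have h4 : mzv (wd (2 ^ r) n A) * Q =
          (mzv (wd (2 ^ r) n A) * (F * (∏ q ∈ A, q : ℕ) * K)) * co A := by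
        rw [hQ, ← h3]
        ring
      have hco0 : (0 : ℝ) ≤ co A := by positivity
      rw [abs_mul]
      refine mul_le_mul (hc A hA) ?_ (abs_nonneg _) hH0
      rw [h4, abs_of_nonneg (by nlinarith)]
      have h5 : (mzv (wd (2 ^ r) n A) * (F * (∏ q ∈ A, q : ℕ) * K)) * (co A : ℝ) ≤ (1 + δ) * co A :=
        mul_le_mul_of_nonneg_right b2 hco0
      have h6 : δ * (co A : ℝ) ≤ δ * PO := mul_le_mul_of_nonneg_left (hcole A hA) hδ0
      linarith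
    refine (Finset.sum_le_sum h2).trans ?_
    rw [Finset.sum_const, nsmul_eq_mul]
    calc (V.card : ℝ) * (H * (δ * PO)) = δ * (V.card * H * PO) := by ring
      _ ≤ δ * (V.card * H * ((2 : ℝ) ^ r) ^ (2 ^ r)) :=
          mul_le_mul_of_nonneg_left (mul_le_mul_of_nonneg_left hPOle (by positivity)) hδ0
      _ ≤ 1 / 2 := hδ
  -- the leading term is not zero
  have hZne : Z ≠ 0 := by
    intro hZ0
    obtain ⟨A, hA, hcA⟩ := hne
    set U := A \ (V.erase A).biUnion id with hU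
    have hUA : U ⊆ A := Finset.sdiff_subset
    have hprime : ∀ q ∈ Om (2 ^ r), q.Prime := fun q hq => (mem_Om.1 hq).2.1
    -- `∏ U` divides the other terms
    have h1 : ∀ B ∈ V.erase A, ((∏ q ∈ U, q : ℕ) : ℤ) ∣ c B * (co B : ℤ) := by
      intro B hB
      refine Dvd.dvd.mul_left ?_ _
      refine Int.natCast_dvd_natCast.2 (Finset.prod_dvd_prod_of_subset _ _ _ ?_)
      intro q hq
      rw [hU, Finset.mem_sdiff, Finset.mem_biUnion] at hq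
      rw [Finset.mem_sdiff]
      refine ⟨hV A hA hq.1, fun hqB => hq.2 ⟨B, hB, hqB⟩⟩
    have h2 : ((∏ q ∈ U, q : ℕ) : ℤ) ∣ c A * (co A : ℤ) := by
      have h3 : c A * (co A : ℤ) = - ∑ B ∈ V.erase A, c B * (co B : ℤ) := by
        rw [hZ, ← Finset.add_sum_erase V (fun B => c B * (co B : ℤ)) hA] at hZ0
        linarith
      rw [h3]
      exact (Finset.dvd_sum h1).neg_right
    have h3 : IsCoprime ((∏ q ∈ U, q : ℕ) : ℤ) (co A : ℤ) := by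
      refine Nat.isCoprime_iff_coprime.2 ?_
      refine Nat.Coprime.prod_left fun q hq => Nat.Coprime.prod_right fun q' hq' => ?_
      have hq1 := hprime q (hV A hA (hUA hq))
      have hq2 := hprime q' (Finset.mem_sdiff.1 hq').1
      refine (Nat.coprime_primes hq1 hq2).2 ?_
      rintro rfl
      exact (Finset.mem_sdiff.1 hq').2 (hUA hq)
    have h4 := h3.dvd_of_dvd_mul_right h2
    have h5 : ∏ q ∈ U, q ≤ (c A).natAbs :=
      Nat.le_of_dvd (Int.natAbs_pos.2 hcA) (Int.natCast_dvd.1 h4)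
    have h6 := prod_ge (2 ^ r) U (hUA.trans (hV A hA))
    have h7 : ((2 : ℝ) ^ r / 8) ^ d ≤ ((2 : ℝ) ^ r / 8) ^ U.card := by
      refine pow_le_pow_right₀ ?_ (hd A hA)
      have : (32 : ℝ) ≤ (2 : ℝ) ^ r := by exact_mod_cast h32
      linarith
    have h8 : ((∏ q ∈ U, q : ℕ) : ℝ) ≤ |(c A : ℝ)| := by
      have h9 : ((∏ q ∈ U, q : ℕ) : ℝ) ≤ ((c A).natAbs : ℝ) := by exact_mod_cast h5
      rw [Nat.cast_natAbs] at h9
      push_cast at h9 ⊢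
      exact h9
    have h9 := hc A hA
    push_cast at h6 h8
    linarith
  have hZ1 : (1 : ℝ) ≤ |(Z : ℝ)| := by
    have := Int.one_le_abs hZne
    exact_mod_cast this
  have hSQ : 1 / 2 ≤ |S| * Q := by
    have h1 : |(Z : ℝ)| ≤ |S * Q| + |S * Q - Z| := by
      have := abs_sub_abs_le_abs_sub (Z : ℝ) (S * Q)
      rw [abs_sub_comm] at this
      linarith
    rw [abs_mul, abs_of_pos hQ0] at h1
    linarith
  have hQle : Q ≤ ((2 : ℝ) ^ r) ^ (fa r n + 2 * 2 ^ r) := by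
    have h1 : F ≤ ((2 : ℝ) ^ r) ^ (2 ^ r) := by
      rw [hF]
      have : (2 ^ r - 1).factorial ≤ (2 ^ r) ^ (2 ^ r) :=
        (Nat.factorial_le (by omega)).trans (Nat.factorial_le_pow _)
      exact_mod_cast this
    calc Q = F * PO * K := rfl
      _ ≤ ((2 : ℝ) ^ r) ^ (2 ^ r) * ((2 : ℝ) ^ r) ^ (2 ^ r) * K :=
          mul_le_mul_of_nonneg_right (mul_le_mul h1 hPOle hPOr.le (by positivity)) hK0.le
      _ = ((2 : ℝ) ^ r) ^ (fa r n + 2 * 2 ^ r) := by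
          rw [hK, ← pow_add, ← pow_add]
          congr 1
          ring
  rw [div_le_iff₀ (by positivity)]
  have h1 : |S| * Q ≤ |S| * ((2 : ℝ) ^ r) ^ (fa r n + 2 * 2 ^ r) :=
    mul_le_mul_of_nonneg_left hQle (abs_nonneg _)
  nlinarith

/-- the values are small -/
theorem small (r : ℕ) (hr : 5 ≤ r) (δ H : ℝ) (n : ℕ) (hn : 5 * 2 ^ r ≤ n)
    (he : err (2 ^ r) (fa r n) ≤ δ) (hδ1 : δ ≤ 1) (V : Finset (Finset ℕ))
    (hV : ∀ A ∈ V, A ⊆ Om (2 ^ r)) (hH0 : 0 ≤ H) (c : Finset ℕ → ℤ) (hc : ∀ A ∈ V, |(c A : ℝ)| ≤ H) :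
    |∑ A ∈ V, c A * mzv (wd (2 ^ r) n A)| * ((2 : ℝ) ^ r) ^ fa r n ≤ 2 * (V.card * H) := by
  have hδ0 : 0 ≤ δ := le_trans (by unfold err; positivity) he
  have hK0 : (0 : ℝ) < ((2 : ℝ) ^ r) ^ fa r n := by positivity
  have h1 : ∀ A ∈ V, |(c A : ℝ) * mzv (wd (2 ^ r) n A)| ≤ H * (2 / ((2 : ℝ) ^ r) ^ fa r n) := by
    intro A hA
    have hpos := wd_val_pos r n hr hn A
    rw [abs_mul, abs_of_pos hpos]
    refine mul_le_mul (hc A hA) ?_ hpos.le hH0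
    obtain ⟨-, b2⟩ := val_bounds r hr δ n hn he A (hV A hA)
    rw [le_div_iff₀ hK0]
    have hf : (1 : ℝ) ≤ ((2 ^ r - 1).factorial : ℝ) := by exact_mod_cast Nat.factorial_pos _
    have hp : (1 : ℝ) ≤ ((∏ q ∈ A, q : ℕ) : ℝ) := by
      exact_mod_cast Finset.prod_pos fun q hq => (mem_Om.1 (hV A hA hq)).2.1.pos
    have hfp : (1 : ℝ) ≤ ((2 ^ r - 1).factorial : ℝ) * ((∏ q ∈ A, q : ℕ) : ℝ) := by nlinarith
    have h2 : mzv (wd (2 ^ r) n A) * ((2 : ℝ) ^ r) ^ fa r n * 1 ≤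
        mzv (wd (2 ^ r) n A) * ((2 : ℝ) ^ r) ^ fa r n *
          (((2 ^ r - 1).factorial : ℝ) * ((∏ q ∈ A, q : ℕ) : ℝ)) :=
      mul_le_mul_of_nonneg_left hfp (by positivity)
    nlinarith
  have h2 : |∑ A ∈ V, c A * mzv (wd (2 ^ r) n A)| ≤ V.card * (H * (2 / ((2 : ℝ) ^ r) ^ fa r n)) := by
    refine (Finset.abs_sum_le_sum_abs _ _).trans ((Finset.sum_le_sum h1).trans ?_)
    rw [Finset.sum_const, nsmul_eq_mul]
  calc |∑ A ∈ V, c A * mzv (wd (2 ^ r) n A)| * ((2 : ℝ) ^ r) ^ fa r n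
      ≤ V.card * (H * (2 / ((2 : ℝ) ^ r) ^ fa r n)) * ((2 : ℝ) ^ r) ^ fa r n :=
        mul_le_mul_of_nonneg_right h2 hK0.le
    _ = 2 * (V.card * H) := by field_simp

end Pool.Agent.Run7.h792.MZ
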