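import Pool.Agent.Run7.h792.MZ.Main
import Pool.Agent.Run7.h792.MZ.Fam
import Pool.Agent.Run7.h792.MZ.Sepm

/-!
# Many multiple zeta values of one weight without relations between any `m` of them (helper792)
-/

set_option autoImplicit false

open Finset Filter

namespace Pool.Agent.Run7.h792.MZ

lemma tl_inj (s s' : ℕ → ℕ) (j : ℕ) (h : tl s j = tl s' j) : ∀ i, 1 ≤ i → i ≤ j → s i = s' i := by
  induction j with
  | zero => intro i h1 h2; omega
  | succ j ih =>
    rw [tl, tl, List.cons.injEq] at h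
    intro i h1 h2
    rcases eq_or_ne i (j + 1) with rfl | hne
    · exact h.1
    · exact ih h.2 i h1 (by omega)

lemma wd_inj (k n : ℕ) (A B : Finset ℕ) (hA : A ⊆ Om k) (hB : B ⊆ Om k) (h : wd k n A = wd k n B) :
    A = B := by
  unfold wd at h
  rw [List.cons.injEq] at h
  have h1 := tl_inj _ _ _ h.2
  have key : ∀ q ∈ Om k, (q ∈ A ↔ q ∈ B) := by
    intro q hq
    have h2 := mem_Om.1 hq
    have h3 := h2.2.1.two_le
    have h4 := h1 q (by omega) (by omega)
    have hq1 : q ≠ 1 := by omega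
    unfold ex at h4
    rw [if_neg hq1, if_neg hq1] at h4
    by_cases hqA : q ∈ A
    · by_cases hqB : q ∈ B
      · exact ⟨fun _ => hqB, fun _ => hqA⟩
      · rw [if_pos hqA, if_neg hqB] at h4
        omega
    · by_cases hqB : q ∈ B
      · rw [if_neg hqA, if_pos hqB] at h4
        omega
      · exact ⟨fun h => absurd h hqA, fun h => absurd h hqB⟩
  ext q
  constructor
  · intro hq
    exact (key q (hA hq)).1 hq
  · intro hq
    exact (key q (hB hq)).2 hq

lemma npow_le (n k a : ℕ) (h2 : 4 ≤ n) (hk : k ^ 2 ≤ n) (ha : a + 2 * k + 1 ≤ 2 * n) :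
    2 * k ^ (a + 2 * k) ≤ n ^ n := by
  have h : (2 * k ^ (a + 2 * k)) ^ 2 ≤ (n ^ n) ^ 2 := by
    calc (2 * k ^ (a + 2 * k)) ^ 2 = 4 * (k ^ 2) ^ (a + 2 * k) := by ring
      _ ≤ n * n ^ (a + 2 * k) := Nat.mul_le_mul h2 (Nat.pow_le_pow_left hk _)
      _ = n ^ (a + 2 * k + 1) := by ring
      _ ≤ n ^ (2 * n) := Nat.pow_le_pow_right (by omega) ha
      _ = (n ^ n) ^ 2 := by ring
  exact (Nat.pow_le_pow_iff_left (by norm_num)).1 h

theorem main2 : ∃ c : ℝ, 0 < c ∧ ∃ N₀ : ℕ, ∀ n : ℕ, N₀ ≤ n → ∀ m : ℕ, 1 ≤ m →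
    (m : ℝ) ^ 2 ≤ c * √((n : ℝ) / Real.log n ^ 3) → ∃ W : Finset (List ℕ),
    (∀ w ∈ W, ((∀ s ∈ w, 1 ≤ s) ∧ ∀ s ∈ w.head?, 2 ≤ s) ∧ w.sum = n) ∧
    Real.exp (c * √((n : ℝ) / Real.log n ^ 3) / (m : ℝ) ^ 2) ≤ W.card ∧
    ∀ V ⊆ W, V.card ≤ m → ∀ (b : ℤ) (x : List ℕ → ℤ),
      (∀ w ∈ V, |(x w : ℝ)| ≤ Real.exp (c * √((n : ℝ) / Real.log n) / m)) →
      (b ≠ 0 ∨ ∃ w ∈ V, x w ≠ 0) → 1 / (n : ℝ) ^ n ≤ |b + ∑ w ∈ V, x w * mzv w| := by
  classical
  obtain ⟨K₀, hK₀⟩ := many_primes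
  obtain ⟨N₀, hN₀⟩ := large_facts (16 * (max K₀ 400000 : ℕ) + 16)
  refine ⟨1 / 8000, by norm_num, max N₀ 3, fun N hN m hm1 hmX => ?_⟩
  obtain ⟨hL1, hy, hX⟩ := hN₀ N ((le_max_left _ _).trans hN)
  have hN3 : 3 ≤ N := (le_max_right _ _).trans hN
  set L : ℝ := Real.log N with hL
  have hNr : (3 : ℝ) ≤ N := by exact_mod_cast hN3
  set Y : ℝ := √((N : ℝ) / L) with hY
  set q : ℕ := ⌊Y / 8⌋₊ with hq
  set r : ℕ := Nat.log 2 q with hr
  set k : ℕ := 2 ^ r with hk
  have hKpos : (0 : ℝ) ≤ ((max K₀ 400000 : ℕ) : ℝ) := by positivity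
  have hY0 : 0 < Y := by linarith
  have hq0 : q ≠ 0 := by
    have : 1 ≤ q := by
      rw [hq, Nat.one_le_floor_iff]
      linarith
    omega
  have hkq : k ≤ q := Nat.pow_log_le_self 2 hq0
  have hqk : q < 2 * k := by
    have := Nat.lt_pow_succ_log_self (b := 2) (by norm_num) q
    rw [pow_succ] at this
    rw [hk, hr]
    omega
  have hkY : (k : ℝ) ≤ Y / 8 := by
    have h1 : (q : ℝ) ≤ Y / 8 := Nat.floor_le (by positivity)
    have h2 : (k : ℝ) ≤ q := by exact_mod_cast hkq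
    linarith
  have hYk : Y / 16 ≤ k := by
    have h1 : Y / 8 < q + 1 := Nat.lt_floor_add_one _
    have h2 : ((q + 1 : ℕ) : ℝ) ≤ ((2 * k : ℕ) : ℝ) := by exact_mod_cast hqk
    push_cast at h2
    linarith
  have hkK : max K₀ 400000 ≤ k := by
    have h1 : ((max K₀ 400000 : ℕ) : ℝ) ≤ k := by linarith
    exact_mod_cast h1
  have hk4 : 400000 ≤ k := (le_max_right _ _).trans hkK
  obtain ⟨hlogk, hprimes⟩ := hK₀ k ((le_max_left _ _).trans hkK)
  set t : ℕ := (Om k).card with ht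
  have htk : t ≤ k := Om_card_le k
  -- sizes
  have hLpos : 0 < L := by linarith
  have hY2 : Y ^ 2 * L = N := by
    rw [hY, Real.sq_sqrt (by positivity)]
    field_simp
  have hkr : (400000 : ℝ) ≤ k := by exact_mod_cast hk4
  have hk12 : ((k : ℝ) + 1) ^ 2 * (16 * L) ≤ N := by
    have h1 : (k : ℝ) + 1 ≤ Y / 4 := by linarith
    have h2 : ((k : ℝ) + 1) ^ 2 ≤ (Y / 4) ^ 2 := pow_le_pow_left₀ (by positivity) h1 2
    nlinarith
  have hkN : (k : ℝ) + 1 ≤ N := by nlinarith
  have hLk : Real.log ((k : ℝ) + 1) ≤ L := Real.log_le_log (by positivity) hkN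
  have hLk' : Real.log (k : ℝ) ≤ L := (Real.log_le_log (by positivity) (by linarith)).trans hLk
  have hkk : k ^ 2 ≤ N := by
    have : ((k : ℝ)) ^ 2 ≤ N := by nlinarith
    exact_mod_cast this
  have h5k : 5 * k ≤ N := by
    have : (5 : ℝ) * k ≤ N := by nlinarith
    exact_mod_cast this
  have hr5 : 5 ≤ r := by
    by_contra hcon
    have : k ≤ 2 ^ 5 := Nat.pow_le_pow_right (by norm_num) (by omega)
    omega
  have hdl := dl_small N k (by omega) L hL1 hLk hk12
  have hdl0 : 0 ≤ dl N k := by unfold dl; positivity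
  have hk2 : ((2 : ℝ) ^ r) = (k : ℝ) := by rw [hk]; push_cast; ring
  -- the number `X`
  set X : ℝ := √((N : ℝ) / L ^ 3) with hXd
  have hXY : X = Y / L := by
    rw [hXd, hY, show (N : ℝ) / L ^ 3 = (N / L) / L ^ 2 by field_simp, Real.sqrt_div' _ (by positivity),
      Real.sqrt_sq hLpos.le]
  have htX : X / 64 ≤ t := by
    rw [hXY]
    have h1 : (k : ℝ) ≤ 4 * (t * L) :=
      hprimes.trans (mul_le_mul_of_nonneg_left (mul_le_mul_of_nonneg_left hLk' (by positivity)) (by norm_num))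
    rw [div_div, div_le_iff₀ (by positivity)]
    linarith
  have hmr : (1 : ℝ) ≤ m := by exact_mod_cast hm1
  have hm2 : (0 : ℝ) < (m : ℝ) ^ 2 := by positivity
  -- the number `j`
  have h28 : 28 * m ^ 2 ≤ t := by
    have : (28 : ℝ) * (m : ℝ) ^ 2 ≤ t := by linarith
    exact_mod_cast this
  set j : ℕ := t / (28 * m ^ 2) with hj
  have hj1 : 1 ≤ j := (Nat.one_le_div_iff (by positivity)).2 h28
  have hjt : 28 * m ^ 2 * j ≤ t := Nat.mul_div_le _ _
  have hjt2 : (t : ℝ) ≤ 56 * (m : ℝ) ^ 2 * j := by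
    have h1 : t < 28 * m ^ 2 * (j + 1) := Nat.lt_mul_div_succ t (by positivity)
    have h2 : 28 * m ^ 2 * (j + 1) ≤ 56 * m ^ 2 * j := by nlinarith
    exact_mod_cast (h1.le.trans h2)
  have hmk : m ≤ k := by nlinarith
  obtain ⟨C, hC1, hC2, hC3⟩ := exists_family (Om k) m j hm1 hj1 hjt
  set W : Finset (List ℕ) := C.image (wd k N) with hW
  have hinj : Set.InjOn (wd k N) (C : Set (Finset ℕ)) := fun A hA B hB h =>
    wd_inj k N A B (hC1 A hA) (hC1 B hB) h
  refine ⟨W, ?_, ?_, ?_⟩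
  · intro w hw
    obtain ⟨A, hA, rfl⟩ := Finset.mem_image.1 hw
    refine ⟨⟨?_, ?_⟩, wd_sum k N (by omega) (by omega) _ (hC1 A hA)⟩
    · intro s hs
      rw [wd, List.mem_cons] at hs
      rcases hs with rfl | hs
      · omega
      · exact wd_pos _ _ s hs
    · intro s hs
      rw [wd, List.head?_cons, Option.mem_some_iff] at hs
      omega
  · rw [hW, Finset.card_image_of_injOn hinj]
    have h1 : ((2 : ℝ) ^ j) ≤ C.card := by exact_mod_cast hC2
    refine le_trans ?_ h1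
    have h2 : (2 : ℝ) ^ j = Real.exp (j * Real.log 2) := by
      rw [Real.exp_nat_mul, Real.exp_log (by norm_num)]
    rw [h2, Real.exp_le_exp, div_le_iff₀ hm2]
    have h3 := Real.log_two_gt_d9
    have h4 : X ≤ 3584 * ((m : ℝ) ^ 2 * j) := by linarith
    have h5 : (0 : ℝ) ≤ (m : ℝ) ^ 2 * j := by positivity
    nlinarith
  · intro V hV hVm b x hx hne
    set V' : Finset (Finset ℕ) := C.filter (fun A => wd k N A ∈ V) with hV'
    have hV'C : V' ⊆ C := Finset.filter_subset _ _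
    have hVimg : V = V'.image (wd k N) := by
      ext w
      rw [Finset.mem_image]
      constructor
      · intro hw
        obtain ⟨A, hA, rfl⟩ := Finset.mem_image.1 (hV hw)
        exact ⟨A, Finset.mem_filter.2 ⟨hA, hw⟩, rfl⟩
      · rintro ⟨A, hA, rfl⟩
        exact (Finset.mem_filter.1 hA).2
    have hinj' : Set.InjOn (wd k N) (V' : Set (Finset ℕ)) := hinj.mono (by exact_mod_cast hV'C)
    have hV'card : V'.card ≤ m := by
      rw [hVimg, Finset.card_image_of_injOn hinj'] at hVm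
      exact hVm
    have hsum : ∑ w ∈ V, (x w : ℝ) * mzv w = ∑ A ∈ V', (x (wd k N A) : ℝ) * mzv (wd k N A) := by
      rw [hVimg, Finset.sum_image hinj']
    rw [hsum]
    set c : Finset ℕ → ℤ := fun A => x (wd k N A) with hcdef
    have hV'Om : ∀ A ∈ V', A ⊆ Om (2 ^ r) := fun A hA => hC1 A (hV'C hA)
    set H : ℝ := Real.exp ((k : ℝ) / (500 * m)) with hH
    have hH0 : 0 ≤ H := by positivity
    have hHk : H ≤ Real.exp k := by
      refine Real.exp_le_exp.2 ?_
      rw [div_le_iff₀ (by positivity)]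
      nlinarith
    have hc : ∀ A ∈ V', |(c A : ℝ)| ≤ H := by
      intro A hA
      refine (hx _ (Finset.mem_filter.1 hA).2).trans (Real.exp_le_exp.2 ?_)
      rw [div_le_div_iff₀ (by positivity) (by positivity)]
      nlinarith
    have hkk1 : (1 : ℝ) ≤ (k : ℝ) := by linarith
    have hVk : 2 * (V'.card : ℝ) ≤ (k : ℝ) ^ k := by
      have h1 : (V'.card : ℝ) ≤ m := by exact_mod_cast hV'card
      have h2 : (m : ℝ) ≤ k := by exact_mod_cast hmk
      have h3 : (k : ℝ) ^ 2 ≤ (k : ℝ) ^ k := pow_le_pow_right₀ hkk1 (by omega)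
      nlinarith
    have herr : err (2 ^ r) (fa r N) ≤ dl N k := err_le_dl N k N t (by omega) htk le_rfl (by omega)
    have hkpow : (0 : ℝ) < (k : ℝ) ^ k := by positivity
    have hbig : 2 * ((V'.card : ℝ) * H * (k : ℝ) ^ k) ≤ Real.exp k * (k : ℝ) ^ (2 * k) := by
      calc 2 * ((V'.card : ℝ) * H * (k : ℝ) ^ k) = (2 * (V'.card : ℝ)) * (H * (k : ℝ) ^ k) := by ring
        _ ≤ (k : ℝ) ^ k * (Real.exp k * (k : ℝ) ^ k) :=
            mul_le_mul hVk (mul_le_mul_of_nonneg_right hHk hkpow.le) (by positivity) hkpow.le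
        _ = Real.exp k * (k : ℝ) ^ (2 * k) := by
            rw [two_mul, pow_add]
            ring
    have hδ : dl N k * (V'.card * H * ((2 : ℝ) ^ r) ^ (2 ^ r)) ≤ 1 / 2 := by
      rw [hk2, ← hk]
      have h1 := mul_le_mul_of_nonneg_left hbig hdl0
      linarith
    have hnn : (0 : ℝ) < (N : ℝ) ^ N := by positivity
    by_cases hb : b = 0
    · subst hb
      have hne' : ∃ A ∈ V', c A ≠ 0 := by
        rcases hne with h | ⟨w, hw, hxw⟩
        · exact absurd rfl h
        · rw [hVimg, Finset.mem_image] at hw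
          obtain ⟨A, hA, rfl⟩ := hw
          exact ⟨A, hA, hxw⟩
      have hHlt : H < ((2 : ℝ) ^ r / 8) ^ (m * j) := by
        rw [hk2]
        have hlog8 : Real.log 8 ≤ Real.log k / 2 := by
          have h1 : Real.log (8 ^ 2 : ℝ) ≤ Real.log k := Real.log_le_log (by norm_num) (by linarith)
          rw [Real.log_pow] at h1
          push_cast at h1
          linarith
        have h2 : Real.log k / 2 ≤ Real.log ((k : ℝ) / 8) := by
          rw [Real.log_div (by positivity) (by norm_num)]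
          linarith
        have hlogpos : 0 < Real.log (k : ℝ) := Real.log_pos (by linarith)
        have h3 : (k : ℝ) ≤ 4 * ((56 * (m : ℝ) ^ 2 * j) * Real.log k) :=
          hprimes.trans (mul_le_mul_of_nonneg_left (mul_le_mul_of_nonneg_right hjt2 hlogpos.le)
            (by norm_num))
        have h4 : (k : ℝ) / (500 * m) < ((m * j : ℕ) : ℝ) * Real.log ((k : ℝ) / 8) := by
          rw [div_lt_iff₀ (by positivity)]
          push_cast
          have h5 : (m : ℝ) ^ 2 * j * (Real.log k / 2) ≤ (m : ℝ) ^ 2 * j * Real.log ((k : ℝ) / 8) :=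
            mul_le_mul_of_nonneg_left h2 (by positivity)
          nlinarith
        calc H < Real.exp (((m * j : ℕ) : ℝ) * Real.log ((k : ℝ) / 8)) := Real.exp_lt_exp.2 h4
          _ = ((k : ℝ) / 8) ^ (m * j) := by rw [Real.exp_nat_mul, Real.exp_log (by positivity)]
      have key := sepm r hr5 (dl N k) H N (by omega) herr V' hV'Om (m * j)
        (fun A hA => hC3 V' hV'C hV'card A hA) hδ hH0 hHlt c hc hne'
      rw [hk2, ← hk] at key
      rw [Int.cast_zero, zero_add]
      refine le_trans ?_ key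
      have h1 := npow_le N k (fa r N) (by omega) hkk (by unfold fa; omega)
      have h2 : (2 : ℝ) * (k : ℝ) ^ (fa r N + 2 * k) ≤ (N : ℝ) ^ N := by exact_mod_cast h1
      exact one_div_le_one_div_of_le (by positivity) h2
    · have hdl1 : dl N k ≤ 1 := by
        have h1 : (1 : ℝ) ≤ Real.exp k * (k : ℝ) ^ (2 * k) := by
          have h2 : (1 : ℝ) ≤ Real.exp k := Real.one_le_exp (by positivity)
          have h3 : (1 : ℝ) ≤ (k : ℝ) ^ (2 * k) := one_le_pow₀ hkk1
          exact one_le_mul_of_one_le_of_one_le h2 h3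
        calc dl N k = dl N k * 1 := (mul_one _).symm
          _ ≤ dl N k * (Real.exp k * (k : ℝ) ^ (2 * k)) := mul_le_mul_of_nonneg_left h1 hdl0
          _ ≤ 1 := hdl.le
      have h1 := small r hr5 (dl N k) H N (by omega) herr hdl1 V' hV'Om hH0 c hc
      rw [hk2] at h1
      set S : ℝ := ∑ A ∈ V', (c A : ℝ) * mzv (wd (2 ^ r) N A) with hS
      have h2' : k + 2 ≤ fa r N := by
        have h10 : 10 * k ≤ N := by nlinarith
        have h11 : (Om (2 ^ r)).card ≤ 2 ^ r := Om_card_le _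
        unfold fa
        omega
      have h2 : (k : ℝ) ^ (k + 2) ≤ (k : ℝ) ^ fa r N := pow_le_pow_right₀ hkk1 h2'
      have h3 : Real.exp k ≤ (k : ℝ) ^ k := by
        rw [show Real.exp (k : ℝ) = Real.exp 1 ^ k by rw [← Real.exp_nat_mul, mul_one]]
        refine pow_le_pow_left₀ (by positivity) ?_ k
        have := Real.exp_one_lt_d9
        linarith
      have h4 : 4 * ((V'.card : ℝ) * H) ≤ (k : ℝ) ^ (k + 2) := by
        have h5 : (V'.card : ℝ) ≤ k := by exact_mod_cast hV'card.trans hmk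
        have h6 : (V'.card : ℝ) * H ≤ k * (k : ℝ) ^ k :=
          mul_le_mul h5 (hHk.trans h3) hH0 (by positivity)
        have h7 : (k : ℝ) ^ (k + 2) = k * (k * (k : ℝ) ^ k) := by ring
        rw [h7]
        calc 4 * ((V'.card : ℝ) * H) ≤ 4 * (k * (k : ℝ) ^ k) := by linarith
          _ ≤ k * (k * (k : ℝ) ^ k) := mul_le_mul_of_nonneg_right (by linarith) (by positivity)
      have hKa : (0 : ℝ) < (k : ℝ) ^ fa r N := by positivity
      have h5 : |S| ≤ 1 / 2 := by
        refine le_of_mul_le_mul_right ?_ hKa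
        linarith
      have hb1 : (1 : ℝ) ≤ |(b : ℝ)| := by
        have := Int.one_le_abs hb
        exact_mod_cast this
      have h6 : (1 : ℝ) / 2 ≤ |(b : ℝ) + S| := by
        have h7 : |(b : ℝ)| ≤ |(b : ℝ) + S| + |S| := by
          have := abs_sub ((b : ℝ) + S) S
          rw [add_sub_cancel_right] at this
          exact this
        linarith
      refine le_trans ?_ h6
      refine one_div_le_one_div_of_le (by norm_num) ?_
      calc (2 : ℝ) ≤ (N : ℝ) ^ 1 := by rw [pow_one]; linarith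
        _ ≤ (N : ℝ) ^ N := pow_le_pow_right₀ (by linarith) (by omega)

end Pool.Agent.Run7.h792.MZ
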