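import Pool.Agent.Run7.h792.MZ.Core

/-!
# The words (helper792)

Let `k = 2 ^ r`, `Ω` the set of the primes between `k / 8` and `k`. The word of a subset `A` of `Ω` has the argument `2` at the
primes of `A`.
-/

set_option autoImplicit false

open Finset

namespace Pool.Agent.Run7.h792.MZ

open scoped symmDiff

/-- the primes between `k / 8` and `k` -/
def Om (k : ℕ) : Finset ℕ := (Finset.range k).filter (fun p => p.Prime ∧ k < 8 * p)

/-- the exponents -/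
def ex (t : ℕ) (A : Finset ℕ) (i : ℕ) : ℕ :=
  if i = 1 then 1 + (t - A.card) else if i ∈ A then 2 else 1

/-- the word of weight `n` of the set `A` -/
def wd (k n : ℕ) (A : Finset ℕ) : List ℕ :=
  (n - (k - 1 + (Om k).card)) :: tl (ex (Om k).card A) (k - 1)

lemma mem_Om {k p : ℕ} : p ∈ Om k ↔ p < k ∧ p.Prime ∧ k < 8 * p := by
  unfold Om
  rw [Finset.mem_filter, Finset.mem_range]

lemma Om_card_le (k : ℕ) : (Om k).card ≤ k := by
  unfold Om
  exact (Finset.card_filter_le _ _).trans (by rw [Finset.card_range])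

lemma PP_ex (k : ℕ) (A : Finset ℕ) (hA : A ⊆ Om k) (t : ℕ) :
    PP (ex t A) (k - 1) = (k - 1).factorial * ∏ q ∈ A, q := by
  unfold PP
  have h1 : ∀ i ∈ Finset.Icc 1 (k - 1), i ^ ex t A i = i * (if i ∈ A then i else 1) := by
    intro i hi
    unfold ex
    rcases eq_or_ne i 1 with rfl | h
    · have : 1 ∉ A := fun h => Nat.not_prime_one (mem_Om.1 (hA h)).2.1
      rw [if_neg this]
      simp
    · rw [if_neg h]
      split_ifs
      · ring
      · ring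
  have h2 : ∏ i ∈ Finset.Icc 1 (k - 1), i = (k - 1).factorial := by
    rw [← Finset.prod_Ico_id_eq_factorial]
    congr 1
  rw [Finset.prod_congr rfl h1, Finset.prod_mul_distrib, h2, Finset.prod_ite_mem]
  congr 1
  rw [Finset.inter_eq_right.2]
  intro q hq
  have := mem_Om.1 (hA hq)
  rw [Finset.mem_Icc]
  have := this.2.1.two_le
  omega

lemma sum_ex (k : ℕ) (hk : 2 ≤ k) (A : Finset ℕ) (hA : A ⊆ Om k) (t : ℕ) (ht : A.card ≤ t) :
    ∑ i ∈ Finset.Icc 1 (k - 1), ex t A i = k - 1 + t := by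
  have h1 : ∀ i ∈ Finset.Icc 1 (k - 1), ex t A i =
      1 + (if i ∈ A then 1 else 0) + (if i = 1 then t - A.card else 0) := by
    intro i hi
    unfold ex
    rcases eq_or_ne i 1 with rfl | h
    · have : 1 ∉ A := fun h => Nat.not_prime_one (mem_Om.1 (hA h)).2.1
      simp [this]
    · rw [if_neg h, if_neg h]
      split_ifs <;> rfl
  rw [Finset.sum_congr rfl h1, Finset.sum_add_distrib, Finset.sum_add_distrib, Finset.sum_const,
    Finset.sum_ite_mem, Finset.sum_ite_eq', if_pos (Finset.mem_Icc.2 ⟨le_rfl, by omega⟩),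
    Finset.sum_const, Finset.inter_eq_right.2]
  · simp
    omega
  · intro q hq
    have := mem_Om.1 (hA hq)
    rw [Finset.mem_Icc]
    have := this.2.1.two_le
    omega

lemma wd_sum (k n : ℕ) (hk : 2 ≤ k) (hn : 2 * k ≤ n) (A : Finset ℕ) (hA : A ⊆ Om k) :
    (wd k n A).sum = n := by
  unfold wd
  rw [List.sum_cons, tl_sum, sum_ex k hk A hA _ (Finset.card_le_card hA)]
  have := Om_card_le k
  omega

lemma wd_pos (k : ℕ) (A : Finset ℕ) : ∀ x ∈ tl (ex (Om k).card A) (k - 1), 1 ≤ x := by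
  intro x hx
  obtain ⟨i, _, _, rfl⟩ := mem_tl _ _ _ hx
  unfold ex
  split_ifs <;> omega

lemma prod_ge (k : ℕ) (U : Finset ℕ) (hU : U ⊆ Om k) :
    ((k : ℝ) / 8) ^ U.card ≤ ((∏ q ∈ U, q : ℕ) : ℝ) := by
  rw [← Finset.prod_const]
  push_cast
  refine Finset.prod_le_prod (fun _ _ => by positivity) fun q hq => ?_
  have h := (mem_Om.1 (hU hq)).2.2
  have h2 : (k : ℝ) < 8 * q := by exact_mod_cast h
  linarith

lemma prod_le (k : ℕ) (U : Finset ℕ) (hU : U ⊆ Om k) : ∏ q ∈ U, q ≤ k ^ k := by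
  rcases Nat.eq_zero_or_pos k with rfl | hk
  · have : U = ∅ := by
      rw [Finset.eq_empty_iff_forall_notMem]
      intro x hx
      have := (mem_Om.1 (hU hx)).1
      omega
    subst this
    simp
  · calc ∏ q ∈ U, q ≤ ∏ _q ∈ U, k := Finset.prod_le_prod (fun _ _ => Nat.zero_le _) fun q hq =>
          (mem_Om.1 (hU hq)).1.le
      _ = k ^ U.card := by rw [Finset.prod_const]
      _ ≤ k ^ k := Nat.pow_le_pow_right hk ((Finset.card_le_card hU).trans (Om_card_le k))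

lemma PP_le (k : ℕ) (hk : 1 ≤ k) (A : Finset ℕ) (hA : A ⊆ Om k) (t : ℕ) :
    PP (ex t A) (k - 1) ≤ k ^ (2 * k) := by
  rw [PP_ex k A hA t, two_mul, pow_add]
  refine Nat.mul_le_mul ?_ (prod_le k A hA)
  calc (k - 1).factorial ≤ k.factorial := Nat.factorial_le (by omega)
    _ ≤ k ^ k := Nat.factorial_le_pow k

/-- the divisibility -/
lemma dvd_of_rel (r e : ℕ) (hr : 5 ≤ r) (A B : Finset ℕ) (hA : A ⊆ Om (2 ^ r)) (hB : B ⊆ Om (2 ^ r))
    (α β : ℕ) (h : α * (2 ^ r) ^ e * ∏ q ∈ B, q = β * ∏ q ∈ A, q) :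
    (∏ q ∈ A \ B, q) ∣ α ∧ (∏ q ∈ B \ A, q) ∣ β := by
  have hcop : ∀ U V : Finset ℕ, U ⊆ Om (2 ^ r) → V ⊆ Om (2 ^ r) → Disjoint U V →
      Nat.Coprime (∏ q ∈ U, q) (∏ q ∈ V, q) := by
    intro U V hU hV hUV
    refine Nat.Coprime.prod_left fun q hq => Nat.Coprime.prod_right fun q' hq' => ?_
    refine (Nat.coprime_primes (mem_Om.1 (hU hq)).2.1 (mem_Om.1 (hV hq')).2.1).2 ?_
    rintro rfl
    exact (Finset.disjoint_left.1 hUV hq) hq'
  have h32 : 32 ≤ 2 ^ r := by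
    calc 32 = 2 ^ 5 := by norm_num
      _ ≤ 2 ^ r := Nat.pow_le_pow_right (by norm_num) hr
  constructor
  · have h1 : (∏ q ∈ A \ B, q) ∣ ∏ q ∈ A, q := Finset.prod_dvd_prod_of_subset _ _ _ Finset.sdiff_subset
    have h2 : (∏ q ∈ A \ B, q) ∣ α * (2 ^ r) ^ e * ∏ q ∈ B, q := by
      rw [h]
      exact h1.mul_left β
    have h3 : Nat.Coprime (∏ q ∈ A \ B, q) (∏ q ∈ B, q) :=
      hcop _ _ (Finset.sdiff_subset.trans hA) hB Finset.sdiff_disjoint
    have h4 := h3.dvd_of_dvd_mul_right h2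
    have h5 : Nat.Coprime (∏ q ∈ A \ B, q) ((2 ^ r) ^ e) := by
      refine Nat.Coprime.pow_right e (Nat.Coprime.pow_right r ?_)
      refine Nat.Coprime.prod_left fun q hq => ?_
      have h6 := mem_Om.1 (hA (Finset.mem_sdiff.1 hq).1)
      refine (Nat.coprime_primes h6.2.1 Nat.prime_two).2 ?_
      omega
    exact h5.dvd_of_dvd_mul_right h4
  · have h1 : (∏ q ∈ B \ A, q) ∣ ∏ q ∈ B, q := Finset.prod_dvd_prod_of_subset _ _ _ Finset.sdiff_subset
    have h2 : (∏ q ∈ B \ A, q) ∣ β * ∏ q ∈ A, q := by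
      rw [← h]
      exact h1.mul_left _
    exact (hcop _ _ (Finset.sdiff_subset.trans hB) hA Finset.sdiff_disjoint).dvd_of_dvd_mul_right h2

/-- the conclusion on positive coefficients, first case -/
lemma sep_aux (r : ℕ) (hr : 5 ≤ r) (δ : ℝ) (n n' : ℕ) (hn : 5 * 2 ^ r ≤ n) (hnn : n ≤ n')
    (he : err (2 ^ r) (n - (2 ^ r - 1 + (Om (2 ^ r)).card)) ≤ δ)
    (he' : err (2 ^ r) (n' - (2 ^ r - 1 + (Om (2 ^ r)).card)) ≤ δ)
    (A B : Finset ℕ) (hA : A ⊆ Om (2 ^ r)) (hB : B ⊆ Om (2 ^ r)) (α β : ℕ)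
    (hδ : δ * (β * ((2 : ℝ) ^ r) ^ (2 * 2 ^ r)) < 1)
    (h : (α : ℝ) * mzv (wd (2 ^ r) n A) = β * mzv (wd (2 ^ r) n' B)) :
    (∏ q ∈ A \ B, q) ∣ α ∧ (∏ q ∈ B \ A, q) ∣ β := by
  have h32 : 32 ≤ 2 ^ r := by
    calc 32 = 2 ^ 5 := by norm_num
      _ ≤ 2 ^ r := Nat.pow_le_pow_right (by norm_num) hr
  have hk1 : 2 ^ r - 1 + 1 = 2 ^ r := by omega
  have hc := Om_card_le (2 ^ r)
  have hδ0 : 0 ≤ δ := le_trans (by unfold err; positivity) he
  have key := two_values (ex (Om (2 ^ r)).card A) (ex (Om (2 ^ r)).card B) (2 ^ r - 1)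
    (n - (2 ^ r - 1 + (Om (2 ^ r)).card)) (n' - (2 ^ r - 1 + (Om (2 ^ r)).card)) α β δ
    (by omega) (by omega) (by rw [hk1]; exact he) (by rw [hk1]; exact he') ?_ h
  · rw [hk1, PP_ex _ A hA, PP_ex _ B hB] at key
    have hf : 0 < (2 ^ r - 1).factorial := Nat.factorial_pos _
    refine dvd_of_rel r (n' - (2 ^ r - 1 + (Om (2 ^ r)).card) -
      (n - (2 ^ r - 1 + (Om (2 ^ r)).card))) hr A B hA hB α β ?_
    refine Nat.eq_of_mul_eq_mul_left hf ?_
    refine Eq.trans ?_ (key.trans ?_) <;> ring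
  · refine lt_of_le_of_lt ?_ hδ
    refine mul_le_mul_of_nonneg_left ?_ hδ0
    push_cast
    refine mul_le_mul_of_nonneg_left ?_ (by positivity)
    exact_mod_cast PP_le (2 ^ r) (by omega) A hA _

lemma wd_val_pos (r n : ℕ) (hr : 5 ≤ r) (hn : 5 * 2 ^ r ≤ n) (A : Finset ℕ) :
    0 < mzv (wd (2 ^ r) n A) := by
  have h32 : 32 ≤ 2 ^ r := by
    calc 32 = 2 ^ 5 := by norm_num
      _ ≤ 2 ^ r := Nat.pow_le_pow_right (by norm_num) hr
  have hc := Om_card_le (2 ^ r)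
  have h := (mzv_bounds (ex (Om (2 ^ r)).card A) (2 ^ r - 1) (n - (2 ^ r - 1 + (Om (2 ^ r)).card))
    (by omega)).1
  refine lt_of_lt_of_le ?_ h
  have := PP_pos (ex (Om (2 ^ r)).card A) (2 ^ r - 1)
  positivity

/-- **Separation.** -/
theorem sep (r : ℕ) (hr : 5 ≤ r) (δ H : ℝ) (n n' : ℕ) (hn : 5 * 2 ^ r ≤ n) (hn' : 5 * 2 ^ r ≤ n')
    (he : err (2 ^ r) (n - (2 ^ r - 1 + (Om (2 ^ r)).card)) ≤ δ)
    (he' : err (2 ^ r) (n' - (2 ^ r - 1 + (Om (2 ^ r)).card)) ≤ δ)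
    (A B : Finset ℕ) (hA : A ⊆ Om (2 ^ r)) (hB : B ⊆ Om (2 ^ r)) (d : ℕ) (hd : d ≤ (A ∆ B).card)
    (hδ : δ * (H * ((2 : ℝ) ^ r) ^ (2 * 2 ^ r)) < 1)
    (hH : ∀ e : ℕ, d ≤ 2 * e → H < ((2 : ℝ) ^ r / 8) ^ e)
    (α β : ℤ) (hα : |(α : ℝ)| ≤ H) (hβ : |(β : ℝ)| ≤ H)
    (h : (α : ℝ) * mzv (wd (2 ^ r) n A) = β * mzv (wd (2 ^ r) n' B)) : α = 0 ∧ β = 0 := by
  have p1 := wd_val_pos r n hr hn A
  have p2 := wd_val_pos r n' hr hn' B
  have hδ0 : 0 ≤ δ := le_trans (by unfold err; positivity) he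
  by_contra hne
  have hα0 : α ≠ 0 := by
    rintro rfl
    apply hne
    refine ⟨rfl, ?_⟩
    rw [Int.cast_zero, zero_mul] at h
    rcases mul_eq_zero.1 h.symm with h | h
    · exact_mod_cast h
    · exact absurd h p2.ne'
  have hβ0 : β ≠ 0 := by
    rintro rfl
    apply hne
    refine ⟨?_, rfl⟩
    rw [Int.cast_zero, zero_mul] at h
    rcases mul_eq_zero.1 h with h | h
    · exact_mod_cast h
    · exact absurd h p1.ne'
  have habs : (α.natAbs : ℝ) * mzv (wd (2 ^ r) n A) = (β.natAbs : ℝ) * mzv (wd (2 ^ r) n' B) := by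
    have h1 := congrArg abs h
    rw [abs_mul, abs_mul, abs_of_pos p1, abs_of_pos p2] at h1
    rw [Nat.cast_natAbs, Nat.cast_natAbs]
    push_cast
    exact h1
  have hαH : (α.natAbs : ℝ) ≤ H := by rw [Nat.cast_natAbs]; push_cast; exact hα
  have hβH : (β.natAbs : ℝ) ≤ H := by rw [Nat.cast_natAbs]; push_cast; exact hβ
  have hX : (0 : ℝ) ≤ ((2 : ℝ) ^ r) ^ (2 * 2 ^ r) := by positivity
  have hdiv : (∏ q ∈ A \ B, q) ∣ α.natAbs ∧ (∏ q ∈ B \ A, q) ∣ β.natAbs := by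
    rcases le_total n n' with hnn | hnn
    · exact sep_aux r hr δ n n' hn hnn he he' A B hA hB _ _
        (lt_of_le_of_lt (mul_le_mul_of_nonneg_left (mul_le_mul_of_nonneg_right hβH hX) hδ0) hδ) habs
    · exact (sep_aux r hr δ n' n hn' hnn he' he B A hB hA _ _
        (lt_of_le_of_lt (mul_le_mul_of_nonneg_left (mul_le_mul_of_nonneg_right hαH hX) hδ0) hδ)
        habs.symm).symm
  have hcard : (A ∆ B).card = (A \ B).card + (B \ A).card := by
    rw [symmDiff_def, Finset.sup_eq_union, Finset.card_union_of_disjoint]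
    exact disjoint_sdiff_sdiff
  rcases le_total (A \ B).card (B \ A).card with hle | hle
  · have h1 := prod_ge (2 ^ r) (B \ A) (Finset.sdiff_subset.trans hB)
    have h2 := Nat.le_of_dvd (Int.natAbs_pos.2 hβ0) hdiv.2
    have h3 := hH (B \ A).card (by omega)
    have h4 : ((∏ q ∈ B \ A, q : ℕ) : ℝ) ≤ (β.natAbs : ℝ) := by exact_mod_cast h2
    push_cast at h1
    push_cast at h4
    linarith
  · have h1 := prod_ge (2 ^ r) (A \ B) (Finset.sdiff_subset.trans hA)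
    have h2 := Nat.le_of_dvd (Int.natAbs_pos.2 hα0) hdiv.1
    have h3 := hH (A \ B).card (by omega)
    have h4 : ((∏ q ∈ A \ B, q : ℕ) : ℝ) ≤ (α.natAbs : ℝ) := by exact_mod_cast h2
    push_cast at h1
    push_cast at h4
    linarith

end Pool.Agent.Run7.h792.MZ
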